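import Pool.Agent.L5helper34.OC.Step

set_option autoImplicit false
set_option linter.all false

namespace Pool.Agent.L5helper34.OC

open Finset
open Pool.Agent.N345.Rs (MDS IsRS GRS ev exists_word)

variable {F : Type} [Field F] [Fintype F] {n k : ℕ} {C : Submodule F (Fin n → F)}
  {T : Finset (Fin n)} {a : Fin n}

lemma three_le {j : ℕ} (hj : 1 ≤ j) : 3 ≤ 3 ^ j := by
  calc 3 = 3 ^ 1 := by norm_num
    _ ≤ 3 ^ j := Nat.pow_le_pow_right (by norm_num) hj

/-- one point less, affine case -/
lemma step_aff [CharP F 3] {j : ℕ} (hq : Fintype.card F = 3 ^ (j + 1)) (hj : 1 ≤ j) (h : MDS k C)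
    (ha : a ∈ T) (hT : T.card + 3 = k) (hn : 2 * 3 ^ j + 2 + T.card ≤ n)
    (hA : ∃ s w : Fin n → F, Aff C T s w) : IsRS 3 (T.erase a) C := by
  classical
  have h3j := three_le hj
  obtain ⟨s, w, hA⟩ := hA
  obtain ⟨u, hu, hua, hu0⟩ := exists_u h ha hT (by omega)
  obtain ⟨hw, hs, hC⟩ := hA
  have hinj : Set.InjOn s (Tᶜ : Finset (Fin n)) := by
    intro i hi i' hi' e
    rw [mem_coe, mem_compl] at hi hi'
    exact hs i hi i' hi' e
  obtain ⟨τ, hτ⟩ := exists_tau hinj (fun i hi => hw i (mem_compl.1 hi)) u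
  have hnz : NZ τ ((Tᶜ : Finset (Fin n)).image s) := by
    refine nz_of h ha hT (P := Tᶜ) disjoint_compl_left hinj ?_ hu hua hu0 hτ
    intro f0 f1 f2
    let c : Fin n → F := fun i => if i ∈ T then 0 else w i * (f0 + f1 * s i + f2 * s i ^ 2)
    refine ⟨c, (hC c (fun i hi => if_pos hi)).2 ⟨f0, f1, f2, fun i hi => if_neg hi⟩,
      fun i hi => if_pos hi, fun i hi => if_neg (mem_compl.1 hi)⟩
  have hK : 2 * 3 ^ j + 2 ≤ ((Tᶜ : Finset (Fin n)).image s).card := by
    rw [card_image_of_injOn hinj, card_compl, Fintype.card_fin]; omega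
  rcases core hq hj hK hnz with ⟨l, c0, c1, c2, hl, hform⟩ | ⟨x, l, c0, c1, c2, hl, hx, hform⟩
  · refine isRS_cub ha ⟨hw, hs, hC⟩ hu hua hu0 hl (c0 := c0) (c1 := c1) (c2 := c2) ?_
    intro i hi
    rw [hτ i (mem_compl.2 hi), hform _ (mem_image_of_mem _ (mem_compl.2 hi))]
  · refine isRS_fin ha ⟨hw, hs, hC⟩ hu hua hu0 hl (x := x) (c0 := c0) (c1 := c1) (c2 := c2) ?_ ?_
    · intro i hi e
      exact hx (e ▸ mem_image_of_mem _ (mem_compl.2 hi))
    · intro i hi
      rw [hτ i (mem_compl.2 hi), hform _ (mem_image_of_mem _ (mem_compl.2 hi))]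

omit [Fintype F] in
lemma exists_three [DecidableEq F] [CharP F 3] [Fintype F] (h9 : 9 ≤ Fintype.card F) (e : F) :
    ∃ s2 s3 : F, (0 : F) ≠ s2 ∧ (0 : F) ≠ s3 ∧ s2 ≠ s3 ∧ s2 + s3 = e := by
  have hc : ({0, e, -e} : Finset F).card < (univ : Finset F).card := by
    rw [card_univ]
    exact lt_of_le_of_lt card_le_three (by omega)
  obtain ⟨s2, -, hs2⟩ := exists_mem_notMem_of_card_lt_card hc
  simp only [mem_insert, mem_singleton, not_or] at hs2
  have h3 : (3 : F) = 0 := by
    have := CharP.cast_eq_zero F 3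
    exact_mod_cast this
  refine ⟨s2, e - s2, Ne.symm hs2.1, fun h0 => hs2.2.1 (by linear_combination h0), ?_, by ring⟩
  intro h0
  exact hs2.2.2 (by linear_combination (-1 : F) * h0 + s2 * h3)

/-- the projection is never the full conic -/
lemma no_full [CharP F 3] {j : ℕ} (hq : Fintype.card F = 3 ^ (j + 1)) (hj : 1 ≤ j) (h : MDS k C)
    (ha : a ∈ T) (hT : T.card + 3 = k) (hR : IsRS 2 T C) : n ≠ Fintype.card F + 1 + T.card := by
  classical
  intro hn
  have h3j : 3 ≤ 3 ^ j := by
    calc 3 = 3 ^ 1 := by norm_num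
      _ ≤ 3 ^ j := Nat.pow_le_pow_right (by norm_num) hj
  have hq3 : Fintype.card F = 3 * 3 ^ j := by rw [hq, pow_succ]; ring
  obtain ⟨s, t, w, hw, hst, hC⟩ := hR
  have h00 : ∀ i, i ∉ T → t i = 0 → s i ≠ 0 := by
    intro i hi hti hsi
    have hc : 1 < (Tᶜ : Finset (Fin n)).card := by rw [card_compl, Fintype.card_fin]; omega
    obtain ⟨i', hi', hji⟩ := exists_mem_ne hc i
    rw [mem_compl] at hi'
    exact hst i' hi' i hi hji (by rw [hti, hsi]; ring)
  let f : {i : Fin n // i ∉ T} → Option F := fun i =>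
    if t i = 0 then none else some (s i / t i)
  have hf : Function.Injective f := by
    intro i i' hij
    by_contra hne
    have hne' : (i : Fin n) ≠ i' := fun e => hne (Subtype.ext e)
    refine hst i i.2 i' i'.2 hne' ?_
    by_cases h1 : t i = 0
    · by_cases h2 : t i' = 0
      · rw [h1, h2]; ring
      · simp only [f, if_pos h1, if_neg h2] at hij
        exact absurd hij (by simp)
    · by_cases h2 : t i' = 0
      · simp only [f, if_neg h1, if_pos h2] at hij
        exact absurd hij (by simp)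
      · simp only [f, if_neg h1, if_neg h2, Option.some.injEq] at hij
        rw [div_eq_div_iff h1 h2] at hij
        linear_combination hij
  have hcard : Fintype.card {i : Fin n // i ∉ T} = Fintype.card (Option F) := by
    rw [Fintype.card_option, Fintype.card_subtype_compl, Fintype.card_fin, Fintype.card_coe]
    omega
  have hbij : Function.Bijective f := (Fintype.bijective_iff_injective_and_card f).2 ⟨hf, hcard⟩
  obtain ⟨⟨i0, hi0⟩, hi0'⟩ := hbij.2 none
  have ht0 : t i0 = 0 := by
    by_contra h1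
    simp only [f, if_neg h1] at hi0'
    exact absurd hi0' (by simp)
  have hs0 : s i0 ≠ 0 := h00 i0 hi0 ht0
  have ht : ∀ i, i ∉ T → i ≠ i0 → t i ≠ 0 := by
    intro i hi hne hti
    exact hst i hi i0 hi0 hne (by rw [hti, ht0]; ring)
  -- the affine data
  set P : Finset (Fin n) := Tᶜ.erase i0 with hP
  have hPm : ∀ i, i ∈ P ↔ i ≠ i0 ∧ i ∉ T := fun i => by rw [hP, mem_erase, mem_compl]
  set s' : Fin n → F := fun i => s i / t i with hs'
  set w' : Fin n → F := fun i => w i * t i ^ 2 with hw'
  have hinj : Set.InjOn s' P := by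
    intro i hi i' hi' e
    rw [mem_coe, hPm] at hi hi'
    by_contra hne
    simp only [hs'] at e
    rw [div_eq_div_iff (ht i hi.2 hi.1) (ht i' hi'.2 hi'.1)] at e
    exact hst i hi.2 i' hi'.2 hne (by linear_combination e)
  have himg : P.image s' = univ := by
    refine eq_univ_iff_forall.2 fun x => ?_
    obtain ⟨⟨i, hi⟩, hi'⟩ := hbij.2 (some x)
    by_cases h1 : t i = 0
    · simp only [f, if_pos h1] at hi'
      exact absurd hi' (by simp)
    · simp only [f, if_neg h1, Option.some.injEq] at hi'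
      exact mem_image.2 ⟨i, (hPm i).2 ⟨fun e => h1 (by rw [e, ht0]), hi⟩, hi'⟩
  have hquad : ∀ f0 f1 f2 : F, ∃ c ∈ C, (∀ i ∈ T, c i = 0) ∧
      (∀ i ∈ P, c i = w' i * (f0 + f1 * s' i + f2 * s' i ^ 2)) ∧
      c i0 = w i0 * (f2 * s i0 ^ 2) := by
    intro f0 f1 f2
    let c : Fin n → F := fun i => if i ∈ T then 0 else
      w i * (f0 * t i ^ 2 + f1 * s i * t i + f2 * s i ^ 2)
    have hc : c ∈ C := by
      refine (hC c (fun i hi => if_pos hi)).2
        ⟨fun r => if r = 0 then f0 else if r = 1 then f1 else f2, fun i hi => ?_⟩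
      rw [ev2]
      simp only [c, if_neg hi, if_true, one_ne_zero, if_false, OfNat.ofNat_ne_zero,
        OfNat.ofNat_ne_one]
    refine ⟨c, hc, fun i hi => if_pos hi, fun i hi => ?_, ?_⟩
    · rw [hPm] at hi
      have hti := ht i hi.2 hi.1
      simp only [c, if_neg hi.2, hw', hs']
      field_simp
    · simp only [c, if_neg hi0, ht0]
      ring
  have hw'0 : ∀ i ∈ P, w' i ≠ 0 := by
    intro i hi
    rw [hPm] at hi
    exact mul_ne_zero (hw i hi.2) (pow_ne_zero _ (ht i hi.2 hi.1))
  obtain ⟨u, hu, hua, hu0⟩ := exists_u h ha hT (by omega)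
  obtain ⟨τ, hτ⟩ := exists_tau hinj hw'0 u
  have hPT : Disjoint P T := by
    rw [disjoint_left]
    intro i hi
    exact ((hPm i).1 hi).2
  have hnz : NZ τ (P.image s') :=
    nz_of h ha hT hPT hinj (fun f0 f1 f2 => by
      obtain ⟨c, hc, h1, h2, -⟩ := hquad f0 f1 f2
      exact ⟨c, hc, h1, h2⟩) hu hua hu0 hτ
  have hK : 2 * 3 ^ j + 2 ≤ (P.image s').card := by
    rw [himg, card_univ]; omega
  rcases core hq hj hK hnz with ⟨l, c0, c1, c2, hl, hform⟩ | ⟨x, l, c0, c1, c2, hl, hx, hform⟩
  · -- the word with value `w' * l * (s - s1) (s - s2) (s - s3)`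
    have hwi0 : w i0 * s i0 ^ 2 ≠ 0 := mul_ne_zero (hw i0 hi0) (pow_ne_zero _ hs0)
    set κ : F := u i0 / (w i0 * s i0 ^ 2) with hκ
    have hκ' : u i0 = w i0 * (κ * s i0 ^ 2) := by
      have hwi := hw i0 hi0
      rw [hκ]; field_simp
    obtain ⟨s2, s3, h2, h3, h23, hsum⟩ := exists_three (F := F) (by omega) ((κ - c2) / l)
    have hsum' : l * (s2 + s3) = κ - c2 := by rw [hsum]; field_simp
    -- subtract the quadratic word with leading coefficient `κ`
    obtain ⟨c, hc, hcT, hcP, hci⟩ := hquad c0 (c1 - l * (s2 * s3)) κ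
    have hz : u - c = 0 := by
      have mem : ∀ x : F, ∃ i ∈ P, s' i = x := fun x => by
        have : x ∈ P.image s' := by rw [himg]; exact mem_univ x
        obtain ⟨i, hi, e⟩ := mem_image.1 this
        exact ⟨i, hi, e⟩
      obtain ⟨i1, m1, e1⟩ := mem 0
      obtain ⟨i2, m2, e2⟩ := mem s2
      obtain ⟨i3, m3, e3⟩ := mem s3
      have hval : ∀ i ∈ P, (u - c) i = w' i * (l * (s' i * (s' i - s2) * (s' i - s3))) := by
        intro i hi
        rw [Pi.sub_apply, hcP i hi, hτ i hi, hform _ (mem_image_of_mem _ hi)]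
        linear_combination (w' i * s' i ^ 2) * hsum'
      refine word_zero h ha hT (Z := {i0, i1, i2, i3}) ?_ ?_ (C.sub_mem hu hc) ?_ ?_
      · rw [disjoint_left]
        intro i hi
        simp only [mem_insert, mem_singleton] at hi
        rcases hi with rfl | rfl | rfl | rfl
        · exact hi0
        · exact disjoint_left.1 hPT m1
        · exact disjoint_left.1 hPT m2
        · exact disjoint_left.1 hPT m3
      · have n1 : i1 ≠ i0 := ((hPm i1).1 m1).1
        have n2 : i2 ≠ i0 := ((hPm i2).1 m2).1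
        have n3 : i3 ≠ i0 := ((hPm i3).1 m3).1
        have n12 : i1 ≠ i2 := fun e => h2 (by rw [← e1, ← e2, e])
        have n13 : i1 ≠ i3 := fun e => h3 (by rw [← e1, ← e3, e])
        have n23 : i2 ≠ i3 := fun e => h23 (by rw [← e2, ← e3, e])
        rw [card_insert_of_notMem, card_insert_of_notMem, card_pair n23]
        · simp only [mem_insert, mem_singleton, not_or]
          exact ⟨n12, n13⟩
        · simp only [mem_insert, mem_singleton, not_or]
          exact ⟨n1.symm, n2.symm, n3.symm⟩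
      · intro i hi
        rw [Pi.sub_apply, hu0 i hi, hcT i (mem_of_mem_erase hi), sub_zero]
      · intro i hi
        simp only [mem_insert, mem_singleton] at hi
        rcases hi with rfl | rfl | rfl | rfl
        · rw [Pi.sub_apply, hκ', hci, sub_self]
        · rw [hval _ m1, e1]; ring
        · rw [hval _ m2, e2]; ring
        · rw [hval _ m3, e3]; ring
    have h5 := congrFun hz a
    rw [Pi.sub_apply, hua, hcT a ha, sub_zero] at h5
    exact one_ne_zero h5
  · exact hx (by rw [himg]; exact mem_univ x)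

/-- **One conical projection is enough**, one step -/
theorem step [CharP F 3] {j : ℕ} (hq : Fintype.card F = 3 ^ (j + 1)) (hj : 1 ≤ j) (h : MDS k C)
    (ha : a ∈ T) (hT : T.card + 3 = k) (hn : 2 * 3 ^ j + 2 + T.card ≤ n) (hR : GRS k C T) :
    GRS k C (T.erase a) := by
  classical
  have e2 : k - T.card - 1 = 2 := by omega
  have hpos : 0 < T.card := card_pos.2 ⟨a, ha⟩
  have e3 : k - (T.erase a).card - 1 = 3 := by rw [card_erase_of_mem ha]; omega
  unfold GRS at hR ⊢
  rw [e2] at hR
  rw [e3]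
  have h1 := N345.Rs.IsRS.length_le hR
  have h2 := no_full hq hj h ha hT hR
  exact step_aff hq hj h ha hT hn (exists_aff hR (by omega) (by omega))

theorem all [CharP F 3] {j : ℕ} (hq : Fintype.card F = 3 ^ (j + 1)) (hj : 1 ≤ j) (h : MDS k C)
    (hT : T.card + 3 = k) (hn : 2 * 3 ^ j + 2 + T.card ≤ n) (hR : GRS k C T) : GRS k C ∅ := by
  classical
  have h3j := three_le hj
  have key : ∀ U : Finset (Fin n), U ⊆ T → GRS k C (T \ U) := by
    intro U
    induction U using Finset.induction_on with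
    | empty => intro _; rwa [sdiff_empty]
    | insert b U hb ih =>
      intro hU
      have hbT : b ∈ T := hU (mem_insert_self b U)
      have h1 := ih ((subset_insert b U).trans hU)
      have h2 := step hq hj h hbT hT hn hR
      have e : (T \ U) ∩ T.erase b = T \ insert b U := by
        ext z
        simp only [mem_inter, mem_sdiff, mem_erase, mem_insert]
        tauto
      rw [← e]
      refine N345.Rs.GRS.inter h (by omega) ?_ h1 h2
      have : ((T \ U) ∪ T.erase b).card ≤ T.card :=
        card_le_card (union_subset sdiff_subset (erase_subset b T))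
      omega
  have := key T (subset_refl T)
  rwa [sdiff_self] at this

end Pool.Agent.L5helper34.OC
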