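import Mathlib

set_option autoImplicit false
set_option linter.all false

/-!
# One conical projection: the basic relation

`F` has `q = 3 m` elements, `m = 3 ^ j`, `σ a = a ^ m`, `η a = τ a ^ m`.
-/

namespace Pool.Agent.L5helper34.OC

open Finset Polynomial

variable {F : Type} [Field F] [DecidableEq F]

/-- third divided difference -/
def dd3 (τ : F → F) (a b c d : F) : F :=
  τ a / ((a - b) * (a - c) * (a - d)) + τ b / ((b - a) * (b - c) * (b - d)) +
    τ c / ((c - a) * (c - b) * (c - d)) + τ d / ((d - a) * (d - b) * (d - c))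

/-- value at `y` of the quadratic polynomial which interpolates `τ` at `a, b, z` -/
def ipl (τ : F → F) (y a b z : F) : F :=
  τ a * ((y - b) * (y - z)) / ((a - b) * (a - z)) + τ b * ((y - a) * (y - z)) / ((b - a) * (b - z)) +
    τ z * ((y - a) * (y - b)) / ((z - a) * (z - b))

/-- `∏ (a - z)` over the other elements of `Y` -/
def dP (Y : Finset F) (a : F) : F := ∏ z ∈ Y.erase a, (a - z)

lemma dP_ne {Y : Finset F} (a : F) : dP Y a ≠ 0 :=
  prod_ne_zero_iff.2 fun z hz => sub_ne_zero.2 (ne_of_mem_erase hz).symm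

lemma ipl_symm (τ : F → F) (y a b z : F) : ipl τ y a b z = ipl τ y b a z := by
  unfold ipl; ring

lemma ipl_sub (τ : F → F) {y a b z z' : F} (hab : a ≠ b) (haz : a ≠ z) (haz' : a ≠ z') (hbz : b ≠ z)
    (hbz' : b ≠ z') (hzz' : z ≠ z') :
    ipl τ y a b z - ipl τ y a b z' = dd3 τ a b z z' * ((y - a) * (y - b) * (z - z')) := by
  have h1 := sub_ne_zero.2 hab
  have h2 := sub_ne_zero.2 haz
  have h3 := sub_ne_zero.2 haz'
  have h4 := sub_ne_zero.2 hbz
  have h5 := sub_ne_zero.2 hbz'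
  have h6 := sub_ne_zero.2 hzz'
  have h1' := sub_ne_zero.2 hab.symm
  have h2' := sub_ne_zero.2 haz.symm
  have h3' := sub_ne_zero.2 haz'.symm
  have h4' := sub_ne_zero.2 hbz.symm
  have h5' := sub_ne_zero.2 hbz'.symm
  have h6' := sub_ne_zero.2 hzz'.symm
  have c1 : ((y - b) * (y - z)) / ((a - b) * (a - z)) - ((y - b) * (y - z')) / ((a - b) * (a - z')) =
      ((y - a) * (y - b) * (z - z')) / ((a - b) * (a - z) * (a - z')) := by
    field_simp
    ring
  have c2 : ((y - a) * (y - z)) / ((b - a) * (b - z)) - ((y - a) * (y - z')) / ((b - a) * (b - z')) =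
      ((y - a) * (y - b) * (z - z')) / ((b - a) * (b - z) * (b - z')) := by
    field_simp
    ring
  have c3 : ((y - a) * (y - b)) / ((z - a) * (z - b)) =
      ((y - a) * (y - b) * (z - z')) / ((z - a) * (z - b) * (z - z')) := by
    field_simp
  have c4 : - (((y - a) * (y - b)) / ((z' - a) * (z' - b))) =
      ((y - a) * (y - b) * (z - z')) / ((z' - a) * (z' - b) * (z' - z)) := by
    have e : z - z' = - (z' - z) := by ring
    rw [e]
    field_simp
  unfold ipl dd3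
  simp only [mul_div_assoc] at c1 c2 c3 c4 ⊢
  linear_combination τ a * c1 + τ b * c2 + τ z * c3 + τ z' * c4

/-- The condition: third differences over `Y` do not vanish. -/
def NZ (τ : F → F) (Y : Finset F) : Prop :=
  ∀ a ∈ Y, ∀ b ∈ Y, ∀ c ∈ Y, ∀ d ∈ Y, a ≠ b → a ≠ c → a ≠ d → b ≠ c → b ≠ d → c ≠ d →
    dd3 τ a b c d ≠ 0

lemma ipl_injOn {τ : F → F} {Y : Finset F} (h : NZ τ Y) {y : F} (hy : y ∉ Y) {a b : F} (ha : a ∈ Y)
    (hb : b ∈ Y) (hab : a ≠ b) : Set.InjOn (ipl τ y a b) ((Y.erase a).erase b : Finset F) := by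
  intro z hz z' hz' he
  by_contra hne
  rw [mem_coe, mem_erase, mem_erase] at hz hz'
  have h1 := ipl_sub τ (y := y) hab hz.2.1.symm hz'.2.1.symm hz.1.symm hz'.1.symm hne
  rw [he, sub_self] at h1
  have h2 := h a ha b hb z hz.2.2 z' hz'.2.2 hab hz.2.1.symm hz'.2.1.symm hz.1.symm hz'.1.symm hne
  have h3 : y - a ≠ 0 := sub_ne_zero.2 fun e => hy (e ▸ ha)
  have h4 : y - b ≠ 0 := sub_ne_zero.2 fun e => hy (e ▸ hb)
  have h5 : z - z' ≠ 0 := sub_ne_zero.2 hne
  exact (mul_ne_zero h2 (mul_ne_zero (mul_ne_zero h3 h4) h5)) h1.symm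

section Ext

variable {E : Type} [Field E]

lemma rpow [CharP E 3] (j : ℕ) {a b y ta tb v : E} (h1 : b - a ≠ 0) (h2 : y - a ≠ 0) (h3 : y - b ≠ 0) :
    (ta / ((a - y) * (a - b)) + v / ((y - a) * (y - b)) + tb / ((b - a) * (b - y))) ^ (3 ^ j) *
      ((b ^ (3 ^ j) - a ^ (3 ^ j)) * (y ^ (3 ^ j) - a ^ (3 ^ j)) * (y ^ (3 ^ j) - b ^ (3 ^ j))) =
    (y ^ (3 ^ j) - b ^ (3 ^ j)) * ta ^ (3 ^ j) + (b ^ (3 ^ j) - a ^ (3 ^ j)) * v ^ (3 ^ j) -
      (y ^ (3 ^ j) - a ^ (3 ^ j)) * tb ^ (3 ^ j) := by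
  haveI : Fact (Nat.Prime 3) := ⟨Nat.prime_three⟩
  haveI : ExpChar E 3 := ExpChar.prime Nat.prime_three
  have e1 : (ta / ((a - y) * (a - b)) + v / ((y - a) * (y - b)) + tb / ((b - a) * (b - y))) *
      ((b - a) * (y - a) * (y - b)) = (y - b) * ta + (b - a) * v - (y - a) * tb := by
    have h1' : a - b ≠ 0 := fun h => h1 (by linear_combination -h)
    have h2' : a - y ≠ 0 := fun h => h2 (by linear_combination -h)
    have h3' : b - y ≠ 0 := fun h => h3 (by linear_combination -h)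
    field_simp
    ring
  rw [← sub_pow_char_pow, ← sub_pow_char_pow, ← sub_pow_char_pow, ← mul_pow, ← mul_pow, ← mul_pow,
    ← mul_pow, ← mul_pow, ← mul_pow, e1, sub_pow_char_pow, add_pow_char_pow]

/-- the Lagrange identity in degree at most `N - 2` -/
lemma lagrange {ι : Type} [DecidableEq ι] (B : Finset ι) (r : ι → E) (hr : Set.InjOn r B) (d : ℕ)
    (hd : d + 2 ≤ B.card) : ∑ b ∈ B, r b ^ d / ∏ z ∈ B.erase b, (r b - r z) = 0 := by
  have h := Lagrange.coeff_eq_sum (s := B) (v := r) hr (P := (X ^ d : E[X]))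
    (by rw [degree_X_pow]; exact_mod_cast (by omega))
  rw [coeff_X_pow, if_neg (by omega)] at h
  rw [h]
  exact sum_congr rfl fun i _ => by rw [eval_pow, eval_X]

end Ext

end Pool.Agent.L5helper34.OC
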