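import Pool.Agent.L5helper34.OC.Core
import Pool.Agent.N345.Rs.Glue

set_option autoImplicit false
set_option linter.all false

namespace Pool.Agent.L5helper34.OC

open Finset
open Pool.Agent.N345.Rs (MDS IsRS GRS ev exists_word)

variable {F : Type} [Field F] {n : ℕ}

lemma ev2 (a : ℕ → F) (s t : F) : ev 2 a s t = a 0 * t ^ 2 + a 1 * s * t + a 2 * s ^ 2 := by
  unfold ev
  rw [sum_range_succ, sum_range_succ, sum_range_one]
  ring

lemma ev3 (a : ℕ → F) (s t : F) :
    ev 3 a s t = a 0 * t ^ 3 + a 1 * s * t ^ 2 + a 2 * s ^ 2 * t + a 3 * s ^ 3 := by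
  unfold ev
  rw [sum_range_succ, sum_range_succ, sum_range_succ, sum_range_one]
  ring

/-- affine form of a Reed-Solomon code of dimension 3 -/
def Aff (C : Submodule F (Fin n → F)) (T : Finset (Fin n)) (s w : Fin n → F) : Prop :=
  (∀ i, i ∉ T → w i ≠ 0) ∧ (∀ i, i ∉ T → ∀ j, j ∉ T → s i = s j → i = j) ∧
    ∀ c : Fin n → F, (∀ i ∈ T, c i = 0) →
      (c ∈ C ↔ ∃ f0 f1 f2 : F, ∀ i, i ∉ T → c i = w i * (f0 + f1 * s i + f2 * s i ^ 2))

variable [Fintype F]

/-- If a point of the projective line is missing we can move it to infinity. -/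
lemma exists_aff {C : Submodule F (Fin n → F)} {T : Finset (Fin n)} (h : IsRS 2 T C)
    (hn : n ≤ Fintype.card F + T.card) (h2 : T.card + 2 ≤ n) :
    ∃ s w : Fin n → F, Aff C T s w := by
  classical
  obtain ⟨s, t, w, hw, hst, hC⟩ := h
  have h00 : ∀ i, i ∉ T → t i = 0 → s i ≠ 0 := by
    intro i hi hti hsi
    have hc : 1 < (Tᶜ : Finset (Fin n)).card := by rw [card_compl, Fintype.card_fin]; omega
    obtain ⟨j, hj, hji⟩ := exists_mem_ne hc i
    rw [mem_compl] at hj
    exact hst j hj i hi hji (by rw [hti, hsi]; ring)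
  let f : {i : Fin n // i ∉ T} → Option F := fun i =>
    if t i = 0 then none else some (s i / t i)
  have hcard : Fintype.card {i : Fin n // i ∉ T} < Fintype.card (Option F) := by
    rw [Fintype.card_option, Fintype.card_subtype_compl, Fintype.card_fin, Fintype.card_coe]
    omega
  obtain ⟨P, hP⟩ : ∃ P, ∀ i, f i ≠ P := by
    by_contra hcon
    push Not at hcon
    have := Fintype.card_le_of_surjective f hcon
    omega
  rcases P with _ | c
  · -- the point at infinity is missing
    have ht : ∀ i, i ∉ T → t i ≠ 0 := fun i hi hti => hP ⟨i, hi⟩ (by simp only [f]; rw [if_pos hti])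
    refine ⟨fun i => s i / t i, fun i => w i * t i ^ 2,
      fun i hi => mul_ne_zero (hw i hi) (pow_ne_zero _ (ht i hi)), ?_, ?_⟩
    · intro i hi j hj hij
      by_contra hne
      simp only at hij
      rw [div_eq_div_iff (ht i hi) (ht j hj)] at hij
      exact hst i hi j hj hne (by linear_combination hij)
    · intro c hc
      rw [hC c hc]
      constructor
      · rintro ⟨a, ha⟩
        refine ⟨a 0, a 1, a 2, fun i hi => ?_⟩
        have := ht i hi
        rw [ha i hi, ev2]
        field_simp
      · rintro ⟨f0, f1, f2, hf⟩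
        refine ⟨fun k => if k = 0 then f0 else if k = 1 then f1 else f2, fun i hi => ?_⟩
        have := ht i hi
        rw [hf i hi, ev2]
        simp only [if_true, one_ne_zero, if_false, OfNat.ofNat_ne_zero, OfNat.ofNat_ne_one]
        field_simp
  · -- an affine point is missing
    have ht : ∀ i, i ∉ T → s i - c * t i ≠ 0 := by
      intro i hi h0
      by_cases hti : t i = 0
      · exact h00 i hi hti (by rw [hti] at h0; linear_combination h0)
      · refine hP ⟨i, hi⟩ ?_
        simp only [f]
        rw [if_neg hti, Option.some.injEq, div_eq_iff hti]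
        linear_combination h0
    refine ⟨fun i => t i / (s i - c * t i), fun i => w i * (s i - c * t i) ^ 2,
      fun i hi => mul_ne_zero (hw i hi) (pow_ne_zero _ (ht i hi)), ?_, ?_⟩
    · intro i hi j hj hij
      by_contra hne
      simp only at hij
      rw [div_eq_div_iff (ht i hi) (ht j hj)] at hij
      exact hst i hi j hj hne (by linear_combination -hij)
    · intro d hd
      rw [hC d hd]
      constructor
      · rintro ⟨a, ha⟩
        refine ⟨a 2, a 1 + 2 * c * a 2, a 0 + c * a 1 + c ^ 2 * a 2, fun i hi => ?_⟩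
        have hu := ht i hi
        rw [ha i hi, ev2]
        dsimp only
        have hx : t i = t i / (s i - c * t i) * (s i - c * t i) := (div_mul_cancel₀ _ hu).symm
        generalize t i / (s i - c * t i) = x at hx ⊢
        generalize hv : s i - c * t i = u at hx hu ⊢
        have hs : s i = u + c * t i := by rw [← hv]; ring
        rw [hs, hx]
        ring
      · rintro ⟨f0, f1, f2, hf⟩
        refine ⟨fun k => if k = 0 then f2 - c * (f1 - 2 * c * f0) - c ^ 2 * f0 else
          if k = 1 then f1 - 2 * c * f0 else f0, fun i hi => ?_⟩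
        have hu := ht i hi
        rw [hf i hi, ev2]
        simp only [if_true, one_ne_zero, if_false, OfNat.ofNat_ne_zero, OfNat.ofNat_ne_one]
        have hx : t i = t i / (s i - c * t i) * (s i - c * t i) := (div_mul_cancel₀ _ hu).symm
        generalize t i / (s i - c * t i) = x at hx ⊢
        generalize hv : s i - c * t i = u at hx hu ⊢
        have hs : s i = u + c * t i := by rw [← hv]; ring
        rw [hs, hx]
        ring

omit [Fintype F] in
/-- `ipl` is a quadratic polynomial -/
lemma ipl_form (τ : F → F) (a b z : F) : ∃ f0 f1 f2 : F, ∀ y, ipl τ y a b z =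
    f0 + f1 * y + f2 * y ^ 2 := by
  refine ⟨τ a * (b * z) / ((a - b) * (a - z)) + τ b * (a * z) / ((b - a) * (b - z)) +
    τ z * (a * b) / ((z - a) * (z - b)),
    - (τ a * (b + z) / ((a - b) * (a - z)) + τ b * (a + z) / ((b - a) * (b - z)) +
    τ z * (a + b) / ((z - a) * (z - b))),
    τ a / ((a - b) * (a - z)) + τ b / ((b - a) * (b - z)) + τ z / ((z - a) * (z - b)),
    fun y => ?_⟩
  unfold ipl
  ring

omit [Fintype F] in
lemma ipl_node [DecidableEq F] {a b z : F} (hab : a ≠ b) (haz : a ≠ z) (hbz : b ≠ z) (τ : F → F) :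
    ipl τ a a b z = τ a ∧ ipl τ b a b z = τ b ∧ ipl τ z a b z = τ z := by
  have h1 := sub_ne_zero.2 hab
  have h2 := sub_ne_zero.2 haz
  have h4 := sub_ne_zero.2 hbz
  have h1' := sub_ne_zero.2 hab.symm
  have h2' := sub_ne_zero.2 haz.symm
  have h4' := sub_ne_zero.2 hbz.symm
  unfold ipl
  refine ⟨?_, ?_, ?_⟩ <;> field_simp <;> ring

omit [Fintype F] in
lemma ipl_last [DecidableEq F] (τ : F → F) {a b z y : F} (hab : a ≠ b) (haz : a ≠ z) (hay : a ≠ y) (hbz : b ≠ z)
    (hby : b ≠ y) (hzy : z ≠ y) (h : dd3 τ a b z y = 0) : ipl τ y a b z = τ y := by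
  have h1 := ipl_sub τ (y := y) hab haz hay hbz hby hzy
  rw [h, zero_mul, sub_eq_zero] at h1
  rw [h1]
  exact (ipl_node hab hay hby τ).2.2

end Pool.Agent.L5helper34.OC
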