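import Pool.Agent.L5helper34.OC.Quad

set_option autoImplicit false
set_option linter.all false

namespace Pool.Agent.L5helper34.OC

open Finset Polynomial

section Lin

variable {F V : Type} [Field F] [AddCommGroup V] [Module F V]

lemma mult_of_ker (φ δ : V →ₗ[F] F) (h : ∀ v, δ v = 0 → φ v = 0) : ∃ c, ∀ v, φ v = c * δ v := by
  by_cases h0 : ∃ u, δ u ≠ 0
  · obtain ⟨u, hu⟩ := h0
    refine ⟨φ u / δ u, fun v => ?_⟩
    have h1 := h (v - (δ v / δ u) • u) (by
      rw [map_sub, map_smul, smul_eq_mul]; field_simp; ring)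
    rw [map_sub, map_smul, smul_eq_mul] at h1
    have h2 : φ v = δ v / δ u * φ u := by linear_combination h1
    rw [h2]; ring
  · push Not at h0
    exact ⟨0, fun v => by rw [h v (h0 v), zero_mul]⟩

/-- A quadratic form `β² - αγ` which is a product `δ ε` of linear forms. -/
lemma factor (h2 : (2 : F) ≠ 0) (α β γ δ ε : V →ₗ[F] F)
    (h : ∀ v, β v ^ 2 - α v * γ v - δ v * ε v = 0) :
    (∃ c b, ∀ v, α v = c * δ v ∧ β v = b * δ v) ∨
      (∃ x b a, ∀ v, β v = x * α v + b * δ v ∧ γ v = x ^ 2 * α v + a * δ v) := by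
  by_cases h0 : ∃ u, δ u = 0 ∧ α u ≠ 0
  · right
    obtain ⟨u, hu, hau⟩ := h0
    set x := β u / α u with hx
    have hbu : β u = x * α u := by rw [hx]; field_simp
    have hcu : γ u = x ^ 2 * α u := by
      have h1 := h u
      rw [hu, hbu] at h1
      have h3 : α u * (γ u - x ^ 2 * α u) = 0 := by linear_combination -h1
      linear_combination (mul_eq_zero.1 h3).resolve_left hau
    have key : ∀ v, δ v = 0 → β v - x * α v = 0 ∧ γ v - x ^ 2 * α v = 0 := by
      intro v hv
      have h1 := h v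
      have h3 := h (v + u)
      simp only [map_add] at h3
      rw [hu, hbu, hcu, hv] at h3
      rw [hv] at h1
      have h4 : α u * (γ v - (2 * x * β v - x ^ 2 * α v)) = 0 := by
        linear_combination h1 - h3
      have h5 : γ v = 2 * x * β v - x ^ 2 * α v := by
        linear_combination (mul_eq_zero.1 h4).resolve_left hau
      have h6 : (β v - x * α v) ^ 2 = 0 := by
        rw [h5] at h1
        linear_combination h1
      have h7 : β v - x * α v = 0 := by simpa using h6
      refine ⟨h7, ?_⟩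
      rw [h5]
      linear_combination (2 * x) * h7
    obtain ⟨b, hb⟩ := mult_of_ker (β - x • α) δ fun v hv => by
      rw [LinearMap.sub_apply, LinearMap.smul_apply, smul_eq_mul]; exact (key v hv).1
    obtain ⟨a, ha⟩ := mult_of_ker (γ - x ^ 2 • α) δ fun v hv => by
      rw [LinearMap.sub_apply, LinearMap.smul_apply, smul_eq_mul]; exact (key v hv).2
    refine ⟨x, b, a, fun v => ⟨?_, ?_⟩⟩
    · have := hb v
      rw [LinearMap.sub_apply, LinearMap.smul_apply, smul_eq_mul] at this
      linear_combination this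
    · have := ha v
      rw [LinearMap.sub_apply, LinearMap.smul_apply, smul_eq_mul] at this
      linear_combination this
  · left
    push Not at h0
    obtain ⟨c, hc⟩ := mult_of_ker α δ h0
    obtain ⟨b, hb⟩ := mult_of_ker β δ fun v hv => by
      have h1 := h v
      rw [hv, h0 v hv] at h1
      have : β v ^ 2 = 0 := by linear_combination h1
      simpa using this
    exact ⟨c, b, fun v => ⟨hc v, hb v⟩⟩

end Lin

variable {F : Type} [Field F] [DecidableEq F]

lemma ipl_quad {a b z : F} (hab : a ≠ b) (haz : a ≠ z) (hbz : b ≠ z) (τ : F → F) {c0 c1 c2 : F}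
    (ha : τ a = c0 + c1 * a + c2 * a ^ 2) (hb : τ b = c0 + c1 * b + c2 * b ^ 2)
    (hz : τ z = c0 + c1 * z + c2 * z ^ 2) (y : F) :
    ipl τ y a b z = c0 + c1 * y + c2 * y ^ 2 := by
  have h1 := sub_ne_zero.2 hab
  have h2 := sub_ne_zero.2 haz
  have h4 := sub_ne_zero.2 hbz
  have h1' := sub_ne_zero.2 hab.symm
  have h2' := sub_ne_zero.2 haz.symm
  have h4' := sub_ne_zero.2 hbz.symm
  unfold ipl
  rw [ha, hb, hz]
  field_simp
  ring

lemma not_quad {τ : F → F} {K K' : Finset F} (h : NZ τ K) (hK' : K' ⊆ K) (hc : 4 ≤ K'.card)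
    {c0 c1 c2 : F} (hτ : ∀ s ∈ K', τ s = c0 + c1 * s + c2 * s ^ 2) : False := by
  obtain ⟨Y, hY, hY4⟩ := exists_subset_card_eq hc
  obtain ⟨a, b, c, d, hab, hac, had, hbc, hbd, hcd, rfl⟩ := card_eq_four.1 hY4
  have ma : a ∈ K' := hY (by simp)
  have mb : b ∈ K' := hY (by simp)
  have mc : c ∈ K' := hY (by simp)
  have md : d ∈ K' := hY (by simp)
  have h1 := ipl_sub τ (y := d) hab hac had hbc hbd hcd
  rw [ipl_quad hab hac hbc τ (hτ a ma) (hτ b mb) (hτ c mc),
    ipl_quad hab had hbd τ (hτ a ma) (hτ b mb) (hτ d md), sub_self] at h1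
  exact mul_ne_zero (h a (hK' ma) b (hK' mb) c (hK' mc) d (hK' md) hab hac had hbc hbd hcd)
    (mul_ne_zero (mul_ne_zero (sub_ne_zero.2 had.symm) (sub_ne_zero.2 hbd.symm))
      (sub_ne_zero.2 hcd)) h1.symm

lemma poly_eq {K : Finset F} {P R : F[X]} (hP : P.natDegree < K.card) (hR : R.natDegree < K.card)
    (h : ∀ b ∈ K, P.eval b = R.eval b) : P = R := by
  by_contra hne
  have h0 : P - R ≠ 0 := sub_ne_zero.2 hne
  have h1 : K.card ≤ (P - R).natDegree := by
    refine card_le_degree_of_subset_roots (Z := K) ?_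
    intro b hb
    rw [mem_roots h0, IsRoot, eval_sub, h b (by simpa using hb), sub_self]
  have h2 := natDegree_sub_le P R
  have h3 : max P.natDegree R.natDegree < K.card := max_lt hP hR
  omega

variable [Fintype F]

theorem core [CharP F 3] {j : ℕ} (hq : Fintype.card F = 3 ^ (j + 1)) (hj : 1 ≤ j) {K : Finset F}
    (hK : 2 * 3 ^ j + 2 ≤ K.card) {τ : F → F} (h : NZ τ K) :
    (∃ l c0 c1 c2 : F, l ≠ 0 ∧ ∀ s ∈ K, τ s = l * s ^ 3 + (c0 + c1 * s + c2 * s ^ 2)) ∨
      (∃ x l c0 c1 c2 : F, l ≠ 0 ∧ x ∉ K ∧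
        ∀ s ∈ K, τ s = l / (s - x) + (c0 + c1 * s + c2 * s ^ 2)) := by
  haveI : Fact (Nat.Prime 3) := ⟨Nat.prime_three⟩
  haveI : ExpChar F 3 := ExpChar.prime Nat.prime_three
  have h3j : 3 ≤ 3 ^ j := by
    calc 3 = 3 ^ 1 := by norm_num
      _ ≤ 3 ^ j := Nat.pow_le_pow_right (by norm_num) hj
  have cube : ∀ x : F, (x ^ (3 ^ j)) ^ 3 = x := pow_q hq
  obtain ⟨D, hD⟩ : ∃ D, K.card = 3 ^ j + D + 3 := ⟨K.card - 3 ^ j - 3, by omega⟩
  have h3 : (3 : F) = 0 := by exact_mod_cast CharP.cast_eq_zero F 3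
  have h2 : (2 : F) ≠ 0 := fun e => one_ne_zero (α := F) (by linear_combination h3 - e)
  have hqf := qf_zero hq hj hD h
  set m := 3 ^ j with hm
  let V := degreeLT F (D + 1)
  have hV : ∀ v : V, (v : F[X]).natDegree ≤ D := fun v => by
    have := mem_degreeLT.1 v.2
    by_cases h0 : (v : F[X]) = 0
    · rw [h0, natDegree_zero]; omega
    · rw [degree_eq_natDegree h0] at this
      have : (v : F[X]).natDegree < D + 1 := by exact_mod_cast this
      omega
  have hV' : ∀ p : F[X], p.natDegree ≤ D → p ∈ V := fun p hp => mem_degreeLT.2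
    (lt_of_le_of_lt degree_le_natDegree (by exact_mod_cast (by omega)))
  -- linear combinations of the functionals
  have Lsub : ∀ (g1 g2 : F → F) (c : F) (p : F[X]),
      L K (fun b => g1 b - c * g2 b) p = L K g1 p - c * L K g2 p := by
    intro g1 g2 c p
    simp only [L_apply, mul_sum, ← sum_sub_distrib]
    exact sum_congr rfl fun b _ => by ring
  have hn : K.card = (m + 1) + D + 2 := by omega
  have hXm : (X ^ m : F[X]).natDegree = m := natDegree_X_pow m
  rcases factor h2 ((L K (fun b => τ b ^ m)).domRestrict V) ((L K (fun b => b ^ m * τ b ^ m)).domRestrict V)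
    ((L K (fun b => (b ^ m) ^ 2 * τ b ^ m)).domRestrict V) ((L K (fun b => (b ^ m) ^ 2)).domRestrict V)
    ((L K (fun b => (τ b ^ m) ^ 2)).domRestrict V) (fun v => hqf v (hV v)) with
    ⟨c, b, hcb⟩ | ⟨x, b, a, hcb⟩
  · left
    obtain ⟨G1, hG1, hG1e⟩ := exists_poly K (fun s => τ s ^ m - c * (s ^ m) ^ 2) D (m + 1) hn
      (fun p hp => by
        rw [Lsub]
        have := (hcb ⟨p, hV' p hp⟩).1
        simp only [LinearMap.domRestrict_apply] at this
        linear_combination this)
    obtain ⟨G2, hG2, hG2e⟩ := exists_poly K (fun s => s ^ m * τ s ^ m - b * (s ^ m) ^ 2) D (m + 1) hn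
      (fun p hp => by
        rw [Lsub]
        have := (hcb ⟨p, hV' p hp⟩).2
        simp only [LinearMap.domRestrict_apply] at this
        linear_combination this)
    set G := G1 - C b * X ^ m with hG
    set G' := G2 - C c * X with hG'
    have dG : G.natDegree ≤ m + 1 := (natDegree_sub_le _ _).trans (max_le hG1
      ((natDegree_C_mul_le _ _).trans (by rw [hXm]; omega)))
    have dG' : G'.natDegree ≤ m + 1 := (natDegree_sub_le _ _).trans (max_le hG2
      ((natDegree_C_mul_le _ _).trans (by rw [natDegree_X]; omega)))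
    have eG : ∀ s ∈ K, G.eval s = τ s ^ m - c * (s ^ m) ^ 2 - b * s ^ m := fun s hs => by
      rw [hG, eval_sub, hG1e s hs, eval_mul, eval_C, eval_pow, eval_X]
    have eGG : G * X ^ m = G' := by
      refine poly_eq (K := K) ?_ (by omega) fun s hs => ?_
      · have := natDegree_mul_le (p := G) (q := (X ^ m : F[X]))
        rw [hXm] at this
        omega
      · rw [hG']
        simp only [eval_sub, eval_mul, eval_pow, eval_X, eval_C]
        rw [eG s hs, hG2e s hs]
        linear_combination (-c) * cube s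
    have dG1 : G.natDegree ≤ 1 := by
      by_cases h0 : G = 0
      · rw [h0, natDegree_zero]; omega
      · have := natDegree_mul_X_pow m h0
        rw [eGG] at this
        omega
    obtain ⟨c1, c0, hc⟩ := exists_eq_X_add_C_of_natDegree_le_one dG1
    have hτ : ∀ s ∈ K, τ s = c1 ^ 3 * s ^ 3 + (c0 ^ 3 + b ^ 3 * s + c ^ 3 * s ^ 2) := by
      intro s hs
      have e1 := eG s hs
      rw [hc] at e1
      simp only [eval_add, eval_mul, eval_C, eval_X] at e1
      have e2 : τ s ^ m = c1 * s + c0 + c * (s ^ m) ^ 2 + b * s ^ m := by linear_combination -e1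
      have e3 : τ s = (c1 * s + c0 + c * (s ^ m) ^ 2 + b * s ^ m) ^ 3 := by rw [← e2, cube]
      rw [e3, add_pow_char, add_pow_char, add_pow_char]
      have e4 := cube s
      linear_combination (c ^ 3 * ((s ^ m) ^ 3 + s) + b ^ 3) * e4
    refine ⟨c1 ^ 3, c0 ^ 3, b ^ 3, c ^ 3, ?_, hτ⟩
    intro e
    exact not_quad h subset_rfl (by omega) (c0 := c0 ^ 3) (c1 := b ^ 3) (c2 := c ^ 3) fun s hs => by
      rw [hτ s hs, e]; ring
  · right
    obtain ⟨G1, hG1, hG1e⟩ := exists_poly K
      (fun s => (s ^ m * τ s ^ m - x * τ s ^ m) - b * (s ^ m) ^ 2) D (m + 1) hn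
      (fun p hp => by
        rw [Lsub, Lsub]
        have := (hcb ⟨p, hV' p hp⟩).1
        simp only [LinearMap.domRestrict_apply] at this
        linear_combination this)
    obtain ⟨G2, hG2, hG2e⟩ := exists_poly K
      (fun s => ((s ^ m) ^ 2 * τ s ^ m - x ^ 2 * τ s ^ m) - a * (s ^ m) ^ 2) D (m + 1) hn
      (fun p hp => by
        rw [Lsub, Lsub]
        have := (hcb ⟨p, hV' p hp⟩).2
        simp only [LinearMap.domRestrict_apply] at this
        linear_combination this)
    set H1 := G1 + C (x * b - a) * X ^ m + C (x * a) with hH1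
    set H2 := G2 - C b * X + C (x ^ 2 * b) * X ^ m + C (x ^ 2 * a) with hH2
    have dH1 : H1.natDegree ≤ m + 1 := by
      refine (natDegree_add_le _ _).trans (max_le ((natDegree_add_le _ _).trans (max_le hG1
        ((natDegree_C_mul_le _ _).trans (by rw [hXm]; omega)))) (by rw [natDegree_C]; omega))
    have dH2 : H2.natDegree ≤ m + 1 := by
      refine (natDegree_add_le _ _).trans (max_le ((natDegree_add_le _ _).trans (max_le
        ((natDegree_sub_le _ _).trans (max_le hG2 ((natDegree_C_mul_le _ _).trans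
          (by rw [natDegree_X]; omega))))
        ((natDegree_C_mul_le _ _).trans (by rw [hXm]; omega)))) (by rw [natDegree_C]; omega))
    have eH1 : ∀ s ∈ K, H1.eval s = (s ^ m - x) * (τ s ^ m - a - b * s ^ m) := fun s hs => by
      rw [hH1]
      simp only [eval_add, eval_mul, eval_C, eval_pow, eval_X]
      rw [hG1e s hs]
      ring
    have eHH : (X ^ m + C x) * H1 = H2 := by
      refine poly_eq (K := K) ?_ (by omega) fun s hs => ?_
      · have := natDegree_mul_le (p := (X ^ m + C x : F[X])) (q := H1)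
        rw [natDegree_X_pow_add_C] at this
        omega
      · rw [eval_mul, eH1 s hs, hH2]
        simp only [eval_add, eval_sub, eval_mul, eval_C, eval_pow, eval_X]
        rw [hG2e s hs]
        linear_combination (-b) * cube s
    have dH11 : H1.natDegree ≤ 1 := by
      by_cases h0 : H1 = 0
      · rw [h0, natDegree_zero]; omega
      · have := (monic_X_pow_add_C x (n := m) (by omega)).natDegree_mul' h0
        rw [eHH, natDegree_X_pow_add_C] at this
        omega
    obtain ⟨c1, c0, hc⟩ := exists_eq_X_add_C_of_natDegree_le_one dH11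
    have hτ : ∀ s ∈ K, (s - x ^ 3) * (τ s - a ^ 3 - b ^ 3 * s) = c1 ^ 3 * s ^ 3 + c0 ^ 3 := by
      intro s hs
      have e1 := eH1 s hs
      rw [hc] at e1
      simp only [eval_add, eval_mul, eval_C, eval_X] at e1
      have e2 : (c1 * s + c0) ^ 3 = ((s ^ m - x) * (τ s ^ m - a - b * s ^ m)) ^ 3 := by rw [e1]
      rw [add_pow_char, mul_pow, mul_pow, sub_pow_char, sub_pow_char, sub_pow_char, mul_pow, cube,
        cube] at e2
      exact e2.symm
    set ξ := x ^ 3 with hξ
    set l := c0 ^ 3 + c1 ^ 3 * ξ ^ 3 with hl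
    have hform : ∀ s ∈ K, s ≠ ξ → τ s = l / (s - ξ) +
        ((a ^ 3 + c1 ^ 3 * ξ ^ 2) + (b ^ 3 + c1 ^ 3 * ξ) * s + c1 ^ 3 * s ^ 2) := by
      intro s hs hsx
      have h4 : s - ξ ≠ 0 := sub_ne_zero.2 hsx
      have h5 := hτ s hs
      have h6 : τ s - a ^ 3 - b ^ 3 * s = (c1 ^ 3 * s ^ 3 + c0 ^ 3) / (s - ξ) := by
        rw [eq_div_iff h4, mul_comm]; exact h5
      have h7 : (c1 ^ 3 * s ^ 3 + c0 ^ 3) / (s - ξ) = l / (s - ξ) +
          c1 ^ 3 * (s ^ 2 + ξ * s + ξ ^ 2) := by
        rw [hl]; field_simp; ring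
      linear_combination h6 + h7
    have hξK : ξ ∉ K := by
      intro hxK
      have h4 := hτ ξ hxK
      rw [sub_self, zero_mul] at h4
      have hl0 : l = 0 := by rw [hl]; linear_combination -h4
      refine not_quad h (erase_subset ξ K) (by rw [card_erase_of_mem hxK]; omega)
        (c0 := a ^ 3 + c1 ^ 3 * ξ ^ 2) (c1 := b ^ 3 + c1 ^ 3 * ξ) (c2 := c1 ^ 3) fun s hs => ?_
      rw [hform s (mem_of_mem_erase hs) (ne_of_mem_erase hs), hl0, zero_div, zero_add]
    refine ⟨ξ, l, _, _, _, ?_, hξK, fun s hs => hform s hs fun e => hξK (e ▸ hs)⟩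
    intro hl0
    exact not_quad h subset_rfl (by omega) fun s hs => by
      rw [hform s hs fun e => hξK (e ▸ hs), hl0, zero_div, zero_add]

end Pool.Agent.L5helper34.OC
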