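import Pool.Agent.L5helper34.OC.T3b

set_option autoImplicit false
set_option linter.all false

namespace Pool.Agent.L5helper34.OC

open Finset Polynomial

variable {F : Type} [Field F] [DecidableEq F]

/-- the functional `p ↦ ∑ p(b) g(b) / P'(b)` -/
noncomputable def L (K : Finset F) (g : F → F) : F[X] →ₗ[F] F where
  toFun p := ∑ b ∈ K, p.eval b * g b / dP K b
  map_add' p r := by
    rw [← sum_add_distrib]
    exact sum_congr rfl fun b _ => by rw [eval_add]; ring
  map_smul' c p := by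
    rw [RingHom.id_apply, smul_eq_mul, mul_sum]
    exact sum_congr rfl fun b _ => by rw [eval_smul, smul_eq_mul]; ring

lemma L_apply (K : Finset F) (g : F → F) (p : F[X]) :
    L K g p = ∑ b ∈ K, p.eval b * g b / dP K b := rfl

lemma sum_coeff (K : Finset F) (P : F[X]) (hP : P.natDegree < K.card) :
    ∑ b ∈ K, P.eval b / dP K b = P.coeff (K.card - 1) := by
  have h := Lagrange.coeff_eq_sum (s := K) (v := fun x : F => x) (fun a _ b _ h => h) (P := P)
    (lt_of_le_of_lt degree_le_natDegree (by exact_mod_cast hP))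
  rw [h]
  rfl

lemma sum_zero (K : Finset F) (P : F[X]) (hP : P.natDegree + 2 ≤ K.card) :
    ∑ b ∈ K, P.eval b / dP K b = 0 := by
  rw [sum_coeff K P (by omega)]
  exact coeff_eq_zero_of_natDegree_lt (by omega)

lemma L_pow (K : Finset F) (n : ℕ) (p : F[X]) (h : p.natDegree + n + 2 ≤ K.card) :
    L K (fun b => b ^ n) p = 0 := by
  have h1 := sum_zero K (p * X ^ n) (by
    have := natDegree_mul_le (p := p) (q := (X ^ n : F[X]))
    rw [natDegree_X_pow] at this
    omega)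
  rw [L_apply, ← h1]
  exact sum_congr rfl fun b _ => by rw [eval_mul, eval_pow, eval_X]

/-- if the functional of `g` vanishes on all polynomials of small degree then `g` is a polynomial of
small degree -/
lemma exists_poly (K : Finset F) (g : F → F) (D n : ℕ) (hK : K.card = n + D + 2)
    (h : ∀ p : F[X], p.natDegree ≤ D → L K g p = 0) :
    ∃ G : F[X], G.natDegree ≤ n ∧ ∀ b ∈ K, G.eval b = g b := by
  have hinj : Set.InjOn (fun x : F => x) (K : Set F) := fun a _ b _ h => h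
  set G := Lagrange.interpolate K (fun x : F => x) g with hG
  have hGe : ∀ b ∈ K, G.eval b = g b := fun b hb =>
    Lagrange.eval_interpolate_at_node g hinj hb
  have hGd : G.degree < K.card := Lagrange.degree_interpolate_lt g hinj
  refine ⟨G, ?_, hGe⟩
  by_contra hcon
  push Not at hcon
  have hG0 : G ≠ 0 := by
    intro e; rw [e, natDegree_zero] at hcon; omega
  have hGn : G.natDegree < K.card := by
    rw [degree_eq_natDegree hG0] at hGd; exact_mod_cast hGd
  have h1 := h (X ^ (K.card - 1 - G.natDegree)) (by rw [natDegree_X_pow]; omega)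
  have h2 := sum_coeff K (G * X ^ (K.card - 1 - G.natDegree)) (by
    rw [natDegree_mul_X_pow _ hG0]; omega)
  have h3 : (G * X ^ (K.card - 1 - G.natDegree)).coeff (K.card - 1) = G.leadingCoeff := by
    have e : K.card - 1 = G.natDegree + (K.card - 1 - G.natDegree) := by omega
    conv_lhs => rw [e]
    rw [show G.natDegree + (K.card - 1 - G.natDegree) - G.natDegree =
      K.card - 1 - G.natDegree by omega, coeff_mul_X_pow]
    rfl
  rw [h3] at h2
  have h4 : L K g (X ^ (K.card - 1 - G.natDegree)) =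
      ∑ b ∈ K, (G * X ^ (K.card - 1 - G.natDegree)).eval b / dP K b := by
    rw [L_apply]
    exact sum_congr rfl fun b hb => by rw [eval_mul, hGe b hb, mul_comm]
  rw [h1, h2] at h4
  exact hG0 (leadingCoeff_eq_zero.1 h4.symm)

/-- the quadratic form -/
noncomputable def qf (K : Finset F) (m : ℕ) (τ : F → F) (p : F[X]) : F :=
  L K (fun b => b ^ m * τ b ^ m) p ^ 2 -
    L K (fun b => τ b ^ m) p * L K (fun b => (b ^ m) ^ 2 * τ b ^ m) p -
    L K (fun b => (b ^ m) ^ 2) p * L K (fun b => (τ b ^ m) ^ 2) p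

lemma NZ.mono {τ : F → F} {K Y : Finset F} (h : NZ τ K) (hY : Y ⊆ K) : NZ τ Y :=
  fun a ha b hb c hc d hd => h a (hY ha) b (hY hb) c (hY hc) d (hY hd)

/-- restriction of the functional -/
lemma L_res (K Z : Finset F) (hZ : Z ⊆ K) (g : F → F) :
    L K g (∏ z ∈ Z, (X - C z)) = ∑ b ∈ K \ Z, g b / dP (K \ Z) b := by
  rw [L_apply, ← sum_sdiff hZ]
  have h1 : ∑ b ∈ Z, (∏ z ∈ Z, (X - C z)).eval b * g b / dP K b = 0 := by
    refine sum_eq_zero fun b hb => ?_
    rw [eval_prod, prod_eq_zero hb (by simp)]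
    ring
  rw [h1, add_zero]
  refine sum_congr rfl fun b hb => ?_
  rw [mem_sdiff] at hb
  have h2 : dP K b = dP (K \ Z) b * ∏ z ∈ Z, (b - z) := by
    unfold dP
    have e : K.erase b = ((K \ Z).erase b) ∪ Z := by
      ext x
      simp only [mem_erase, mem_union, mem_sdiff]
      constructor
      · rintro ⟨h1, h2⟩
        by_cases h3 : x ∈ Z
        · exact Or.inr h3
        · exact Or.inl ⟨h1, h2, h3⟩
      · rintro (⟨h1, h2, h3⟩ | h3)
        · exact ⟨h1, h2⟩
        · exact ⟨fun e => hb.2 (e ▸ h3), hZ h3⟩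
    rw [e, prod_union]
    rw [disjoint_left]
    intro x hx hxZ
    rw [mem_erase, mem_sdiff] at hx
    exact hx.2.2 hxZ
  have h3 : ∏ z ∈ Z, (b - z) ≠ 0 := prod_ne_zero_iff.2 fun z hz =>
    sub_ne_zero.2 fun e => hb.2 (e ▸ hz)
  have h4 : (∏ z ∈ Z, (X - C z)).eval b = ∏ z ∈ Z, (b - z) := by
    rw [eval_prod]; simp
  rw [h2, h4]
  have h5 : dP (K \ Z) b ≠ 0 := dP_ne b
  field_simp

variable [Fintype F]

lemma qf_prod [CharP F 3] {j : ℕ} (hq : Fintype.card F = 3 ^ (j + 1)) (hj : 1 ≤ j) {K : Finset F}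
    {D : ℕ} (hK : K.card = 3 ^ j + D + 3) {τ : F → F} (h : NZ τ K) (Z : Finset F) (hZ : Z ⊆ K)
    (hZD : Z.card = D) : qf K (3 ^ j) τ (∏ z ∈ Z, (X - C z)) = 0 := by
  classical
  set m := 3 ^ j with hm
  have hY : (K \ Z).card = m + 3 := by rw [card_sdiff_of_subset hZ, hK, hZD]; omega
  have hT := T3 hq hj hY (h.mono sdiff_subset)
  have hpd : (∏ z ∈ Z, (X - C z) : F[X]).natDegree = D := by
    rw [natDegree_prod_of_monic _ _ fun c _ => monic_X_sub_C c]
    simp [hZD]
  have z0 : ∑ b ∈ K \ Z, (1 : F) / dP (K \ Z) b = 0 := by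
    have := L_pow K 0 (∏ z ∈ Z, (X - C z)) (by rw [hpd, hK]; omega)
    rw [L_res K Z hZ] at this
    rw [← this]
    exact sum_congr rfl fun b _ => by rw [pow_zero]
  have z1 : ∑ b ∈ K \ Z, b ^ m / dP (K \ Z) b = 0 := by
    have := L_pow K m (∏ z ∈ Z, (X - C z)) (by rw [hpd, hK]; omega)
    rwa [L_res K Z hZ] at this
  unfold qf
  simp only [L_res K Z hZ]
  generalize K \ Z = Y at *
  have e1 : ∑ a ∈ Y, ∑ b ∈ Y.erase a,
      S m Y a b * (τ a ^ m * (τ a ^ m - τ b ^ m)) =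
      ∑ a ∈ Y, ∑ b ∈ Y, S m Y a b * (τ a ^ m * (τ a ^ m - τ b ^ m)) := by
    refine sum_congr rfl fun a ha => ?_
    rw [← add_sum_erase _ _ ha, sub_self, mul_zero, mul_zero, zero_add]
  rw [e1] at hT
  have e2 : ∑ a ∈ Y, ∑ b ∈ Y, S m Y a b * (τ a ^ m * (τ a ^ m - τ b ^ m)) =
      (∑ a ∈ Y, (a ^ m) ^ 2 * (τ a ^ m) ^ 2 / dP Y a) * (∑ b ∈ Y, 1 / dP Y b) -
      2 * ((∑ a ∈ Y, (a ^ m) * (τ a ^ m) ^ 2 / dP Y a) * (∑ b ∈ Y, b ^ m / dP Y b)) +
      (∑ a ∈ Y, (τ a ^ m) ^ 2 / dP Y a) * (∑ b ∈ Y, (b ^ m) ^ 2 / dP Y b) -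
      (∑ a ∈ Y, (a ^ m) ^ 2 * τ a ^ m / dP Y a) * (∑ b ∈ Y, τ b ^ m / dP Y b) +
      2 * ((∑ a ∈ Y, a ^ m * τ a ^ m / dP Y a) * (∑ b ∈ Y, b ^ m * τ b ^ m / dP Y b)) -
      (∑ a ∈ Y, τ a ^ m / dP Y a) * (∑ b ∈ Y, (b ^ m) ^ 2 * τ b ^ m / dP Y b) := by
    rw [sum_mul_sum, sum_mul_sum, sum_mul_sum, sum_mul_sum, sum_mul_sum, sum_mul_sum]
    simp only [mul_sum, ← sum_sub_distrib, ← sum_add_distrib]
    refine sum_congr rfl fun a _ => sum_congr rfl fun b _ => ?_
    have h1 := dP_ne (Y := Y) a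
    have h2 := dP_ne (Y := Y) b
    unfold S
    field_simp
    ring
  rw [e2, z0, z1] at hT
  have h3 : (3 : F) = 0 := by exact_mod_cast CharP.cast_eq_zero F 3
  generalize (∑ a ∈ Y, (τ a ^ m) ^ 2 / dP Y a) = ε at *
  generalize (∑ b ∈ Y, (b ^ m) ^ 2 / dP Y b) = δ at *
  generalize (∑ a ∈ Y, (a ^ m) ^ 2 * τ a ^ m / dP Y a) = γ at *
  generalize (∑ b ∈ Y, τ b ^ m / dP Y b) = α at *
  generalize (∑ a ∈ Y, a ^ m * τ a ^ m / dP Y a) = β at *
  linear_combination (-1 : F) * hT + (β ^ 2 - α * γ) * h3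

/-- the polar relations give the quadratic form on a sum -/
lemma quad_sum {A B a1 a2 a3 b1 b2 b3 c1 c2 c3 d1 d2 d3 e1 e2 e3 s t : F}
    (q1 : b1 ^ 2 - a1 * c1 - d1 * e1 = 0) (q2 : b2 ^ 2 - a2 * c2 - d2 * e2 = 0)
    (q3 : b3 ^ 2 - a3 * c3 - d3 * e3 = 0)
    (q13 : (b1 + b3) ^ 2 - (a1 + a3) * (c1 + c3) - (d1 + d3) * (e1 + e3) = 0)
    (q23 : (b2 + b3) ^ 2 - (a2 + a3) * (c2 + c3) - (d2 + d3) * (e2 + e3) = 0)
    (q12 : (s * b1 + t * b2) ^ 2 - (s * a1 + t * a2) * (s * c1 + t * c2) -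
      (s * d1 + t * d2) * (s * e1 + t * e2) = 0) (hs : s ≠ 0) (ht : t ≠ 0) :
    (A * b1 + B * b2 + b3) ^ 2 - (A * a1 + B * a2 + a3) * (A * c1 + B * c2 + c3) -
      (A * d1 + B * d2 + d3) * (A * e1 + B * e2 + e3) = 0 := by
  have h12 : 2 * b1 * b2 - a1 * c2 - a2 * c1 - d1 * e2 - d2 * e1 = 0 := by
    have h : s * t * (2 * b1 * b2 - a1 * c2 - a2 * c1 - d1 * e2 - d2 * e1) = 0 := by
      linear_combination q12 - s ^ 2 * q1 - t ^ 2 * q2
    exact (mul_eq_zero.1 h).resolve_left (mul_ne_zero hs ht)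
  linear_combination A ^ 2 * q1 + B ^ 2 * q2 + q3 + A * B * h12 + A * (q13 - q1 - q3) +
    B * (q23 - q2 - q3)

lemma qf_step [CharP F 3] {j : ℕ} (hq : Fintype.card F = 3 ^ (j + 1)) (hj : 1 ≤ j) {K : Finset F}
    {D : ℕ} (hK : K.card = 3 ^ j + D + 3) {τ : F → F} (h : NZ τ K) (i : ℕ) :
    ∀ (Z : Finset F), Z ⊆ K → Z.card + i = D → ∀ p : F[X], p.natDegree ≤ i →
      qf K (3 ^ j) τ ((∏ z ∈ Z, (X - C z)) * p) = 0 := by
  classical
  induction i with
  | zero =>
    intro Z hZ hZD p hp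
    rw [eq_C_of_natDegree_le_zero hp, mul_comm, ← smul_eq_C_mul]
    have h1 := qf_prod hq hj hK h Z hZ (by omega)
    unfold qf at h1 ⊢
    simp only [map_smul, smul_eq_mul]
    linear_combination (p.coeff 0) ^ 2 * h1
  | succ i ih =>
    intro Z hZ hZD p hp
    -- vanishing on the polynomials with a zero in `K \ Z`
    have key : ∀ z ∈ K \ Z, ∀ r : F[X], r.natDegree ≤ i + 1 → r.eval z = 0 →
        qf K (3 ^ j) τ ((∏ z ∈ Z, (X - C z)) * r) = 0 := by
      intro z hz r hr hrz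
      rw [mem_sdiff] at hz
      have h1 : (X - C z) * (r /ₘ (X - C z)) = r := mul_divByMonic_eq_iff_isRoot.2 hrz
      have h2 : (r /ₘ (X - C z)).natDegree ≤ i := by
        rw [natDegree_divByMonic _ (monic_X_sub_C z), natDegree_X_sub_C]; omega
      have h3 := ih (insert z Z) (insert_subset hz.1 hZ)
        (by rw [card_insert_of_notMem hz.2]; omega) _ h2
      rw [prod_insert hz.2] at h3
      rw [← h1]
      convert h3 using 2
      ring
    have hcard : 2 < (K \ Z).card := by rw [card_sdiff_of_subset hZ, hK]; omega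
    obtain ⟨z1, z2, z3, hz1, hz2, hz3, h12, h13, h23⟩ := two_lt_card_iff.1 hcard
    have s12 := sub_ne_zero.2 h12
    have s21 := sub_ne_zero.2 h12.symm
    have s31 := sub_ne_zero.2 h13.symm
    have s32 := sub_ne_zero.2 h23.symm
    set A := p.eval z1 / (z1 - z2) with hA
    set B := p.eval z2 / (z2 - z1) with hB
    set r : F[X] := p - (A • (X - C z2) + B • (X - C z1)) with hr
    have hA' : A * (z1 - z2) = p.eval z1 := by rw [hA]; field_simp
    have hB' : B * (z2 - z1) = p.eval z2 := by rw [hB]; field_simp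
    have rd : r.natDegree ≤ i + 1 := by
      refine (natDegree_sub_le _ _).trans (max_le hp ?_)
      refine (natDegree_add_le _ _).trans (max_le ?_ ?_)
      · refine (natDegree_smul_le _ _).trans ?_
        rw [natDegree_X_sub_C]; omega
      · refine (natDegree_smul_le _ _).trans ?_
        rw [natDegree_X_sub_C]; omega
    have r1 : r.eval z1 = 0 := by
      rw [hr]
      simp only [eval_sub, eval_add, eval_smul, eval_X, eval_C, smul_eq_mul]
      linear_combination -hA'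
    have r2 : r.eval z2 = 0 := by
      rw [hr]
      simp only [eval_sub, eval_add, eval_smul, eval_X, eval_C, smul_eq_mul]
      linear_combination -hB'
    have xd : ∀ z : F, (X - C z : F[X]).natDegree ≤ i + 1 := fun z => by
      rw [natDegree_X_sub_C]; omega
    have xe : ∀ z : F, (X - C z : F[X]).eval z = 0 := fun z => by simp
    have q1 := key z2 hz2 (X - C z2) (xd z2) (xe z2)
    have q2 := key z1 hz1 (X - C z1) (xd z1) (xe z1)
    have q3 := key z1 hz1 r rd r1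
    have q13 := key z2 hz2 ((X - C z2) + r) ((natDegree_add_le _ _).trans (max_le (xd z2) rd))
      (by rw [eval_add, xe, r2, add_zero])
    have q23 := key z1 hz1 ((X - C z1) + r) ((natDegree_add_le _ _).trans (max_le (xd z1) rd))
      (by rw [eval_add, xe, r1, add_zero])
    have q12 := key z3 hz3 ((z3 - z1) • (X - C z2) + (-(z3 - z2)) • (X - C z1))
      ((natDegree_add_le _ _).trans (max_le ((natDegree_smul_le _ _).trans (xd z2))
        ((natDegree_smul_le _ _).trans (xd z1))))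
      (by simp only [eval_sub, eval_add, eval_smul, eval_X, eval_C, smul_eq_mul]; ring)
    have hp' : p = A • (X - C z2) + B • (X - C z1) + r := by rw [hr]; ring
    rw [hp']
    have madd : ∀ a b : F[X], (∏ z ∈ Z, (X - C z)) * (a + b) =
        (∏ z ∈ Z, (X - C z)) * a + (∏ z ∈ Z, (X - C z)) * b := fun a b => mul_add _ _ _
    unfold qf at q1 q2 q3 q13 q23 q12 ⊢
    simp only [madd, mul_smul_comm, map_add, map_smul, smul_eq_mul] at q1 q2 q3 q13 q23 q12 ⊢
    exact quad_sum q1 q2 q3 q13 q23 q12 s31 (neg_ne_zero.2 s32)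

/-- **The quadratic form vanishes.** -/
theorem qf_zero [CharP F 3] {j : ℕ} (hq : Fintype.card F = 3 ^ (j + 1)) (hj : 1 ≤ j) {K : Finset F}
    {D : ℕ} (hK : K.card = 3 ^ j + D + 3) {τ : F → F} (h : NZ τ K) (p : F[X])
    (hp : p.natDegree ≤ D) : qf K (3 ^ j) τ p = 0 := by
  have h1 := qf_step hq hj hK h D ∅ (empty_subset _) (by simp) p hp
  rwa [prod_empty, one_mul] at h1

end Pool.Agent.L5helper34.OC
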