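import Pool.Agent.L5helper34.OC.Code

set_option autoImplicit false
set_option linter.all false

namespace Pool.Agent.L5helper34.OC

open Finset
open Pool.Agent.N345.Rs (MDS IsRS GRS ev exists_word)

variable {F : Type} [Field F] {n k : ℕ} {C : Submodule F (Fin n → F)} {T : Finset (Fin n)}
  {a : Fin n}

lemma exists_u (h : MDS k C) (ha : a ∈ T) (hT : T.card + 3 = k) (hkn : k ≤ n) :
    ∃ u ∈ C, u a = 1 ∧ ∀ i ∈ T.erase a, u i = 0 := by
  classical
  obtain ⟨I, hTI, hI⟩ := exists_superset_card_eq (s := T) (n := k) (by omega)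
    (by rw [Fintype.card_fin]; omega)
  obtain ⟨c, hc, hcI⟩ := exists_word h hI (fun i => if i = a then 1 else 0)
  refine ⟨c, hc, ?_, fun i hi => ?_⟩
  · rw [hcI a (hTI ha), if_pos rfl]
  · rw [hcI i (hTI (mem_of_mem_erase hi)), if_neg (ne_of_mem_erase hi)]

/-- a word with `k` zeros off `a`, vanishing on `T.erase a`, vanishes at `a` -/
lemma word_zero (h : MDS k C) (ha : a ∈ T) (hT : T.card + 3 = k) {Z : Finset (Fin n)}
    (hZ : Disjoint Z T) (hZ4 : 4 ≤ Z.card) {c : Fin n → F} (hc : c ∈ C)
    (h0 : ∀ i ∈ T.erase a, c i = 0) (hz : ∀ i ∈ Z, c i = 0) : c = 0 := by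
  classical
  refine h.zeros c hc (T.erase a ∪ Z) ?_ ?_
  · rw [card_union_of_disjoint, card_erase_of_mem ha]
    · have : 0 < T.card := card_pos.2 ⟨a, ha⟩
      omega
    · exact (hZ.symm).mono_left (erase_subset a T)
  · intro i hi
    rcases mem_union.1 hi with hi | hi
    · exact h0 i hi
    · exact hz i hi

lemma nz_of [DecidableEq F] (h : MDS k C) (ha : a ∈ T) (hT : T.card + 3 = k) {P : Finset (Fin n)}
    (hP : Disjoint P T) {s w : Fin n → F} (hs : Set.InjOn s P)
    (hquad : ∀ f0 f1 f2 : F, ∃ c ∈ C, (∀ i ∈ T, c i = 0) ∧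
      ∀ i ∈ P, c i = w i * (f0 + f1 * s i + f2 * s i ^ 2))
    {u : Fin n → F} (hu : u ∈ C) (hua : u a = 1) (hu0 : ∀ i ∈ T.erase a, u i = 0) {τ : F → F}
    (hτ : ∀ i ∈ P, u i = w i * τ (s i)) : NZ τ (P.image s) := by
  classical
  intro x1 h1 x2 h2 x3 h3 x4 h4 h12 h13 h14 h23 h24 h34 hd
  obtain ⟨i1, m1, rfl⟩ := mem_image.1 h1
  obtain ⟨i2, m2, rfl⟩ := mem_image.1 h2
  obtain ⟨i3, m3, rfl⟩ := mem_image.1 h3
  obtain ⟨i4, m4, rfl⟩ := mem_image.1 h4
  obtain ⟨f0, f1, f2, hf⟩ := ipl_form τ (s i1) (s i2) (s i3)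
  obtain ⟨c, hc, hcT, hcP⟩ := hquad f0 f1 f2
  obtain ⟨e1, e2, e3⟩ := ipl_node h12 h13 h23 τ
  have e4 := ipl_last τ h12 h13 h14 h23 h24 h34 hd
  have hne : ∀ {i i' : Fin n}, s i ≠ s i' → i ≠ i' := fun hh e => hh (by rw [e])
  have hz : u - c = 0 := by
    refine word_zero h ha hT (Z := {i1, i2, i3, i4}) ?_ ?_ (C.sub_mem hu hc) ?_ ?_
    · rw [disjoint_left]
      intro i hi
      simp only [mem_insert, mem_singleton] at hi
      rcases hi with rfl | rfl | rfl | rfl
      · exact disjoint_left.1 hP m1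
      · exact disjoint_left.1 hP m2
      · exact disjoint_left.1 hP m3
      · exact disjoint_left.1 hP m4
    · rw [card_insert_of_notMem, card_insert_of_notMem, card_pair (hne h34)]
      · simp only [mem_insert, mem_singleton, not_or]
        exact ⟨hne h23, hne h24⟩
      · simp only [mem_insert, mem_singleton, not_or]
        exact ⟨hne h12, hne h13, hne h14⟩
    · intro i hi
      rw [Pi.sub_apply, hu0 i hi, hcT i (mem_of_mem_erase hi), sub_zero]
    · intro i hi
      simp only [mem_insert, mem_singleton] at hi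
      rw [Pi.sub_apply]
      rcases hi with rfl | rfl | rfl | rfl
      · rw [hτ _ m1, hcP _ m1, ← hf, e1, sub_self]
      · rw [hτ _ m2, hcP _ m2, ← hf, e2, sub_self]
      · rw [hτ _ m3, hcP _ m3, ← hf, e3, sub_self]
      · rw [hτ _ m4, hcP _ m4, ← hf, e4, sub_self]
  have h5 := congrFun hz a
  rw [Pi.sub_apply, hua, hcT a ha, sub_zero] at h5
  exact one_ne_zero h5

/-- the function `τ` -/
lemma exists_tau {P : Finset (Fin n)} {s w : Fin n → F} (hs : Set.InjOn s P)
    (hw : ∀ i ∈ P, w i ≠ 0) (u : Fin n → F) : ∃ τ : F → F, ∀ i ∈ P, u i = w i * τ (s i) := by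
  classical
  refine ⟨fun y => if h : ∃ i, i ∈ P ∧ s i = y then u h.choose / w h.choose else 0, ?_⟩
  intro i hi
  have h : ∃ i', i' ∈ P ∧ s i' = s i := ⟨i, hi, rfl⟩
  have e : h.choose = i := hs h.choose_spec.1 hi h.choose_spec.2
  simp only [dif_pos h, e]
  have := hw i hi
  field_simp

lemma isRS_fin (ha : a ∈ T) {s w : Fin n → F} (hA : Aff C T s w) {u : Fin n → F} (hu : u ∈ C)
    (hua : u a = 1) (hu0 : ∀ i ∈ T.erase a, u i = 0) {x l c0 c1 c2 : F} (hl : l ≠ 0)
    (hx : ∀ i, i ∉ T → s i ≠ x)
    (hform : ∀ i, i ∉ T → u i = w i * (l / (s i - x) + (c0 + c1 * s i + c2 * s i ^ 2))) :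
    IsRS 3 (T.erase a) C := by
  classical
  obtain ⟨hw, hs, hC⟩ := hA
  have hxx : ∀ i, i ∉ T → s i - x ≠ 0 := fun i hi => sub_ne_zero.2 (hx i hi)
  have hnot : ∀ i, i ∉ T.erase a → i = a ∨ i ∉ T := by
    intro i hi
    rw [mem_erase, not_and_or, not_not] at hi
    exact hi
  -- the word `u' = u - quadratic`
  obtain ⟨u', hu', hua', hu0', hform'⟩ : ∃ u' ∈ C, u' a = 1 ∧ (∀ i ∈ T.erase a, u' i = 0) ∧
      ∀ i, i ∉ T → u' i = w i * (l / (s i - x)) := by
    let c : Fin n → F := fun i => if i ∈ T then 0 else w i * (c0 + c1 * s i + c2 * s i ^ 2)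
    have hc : c ∈ C := (hC c (fun i hi => if_pos hi)).2 ⟨c0, c1, c2, fun i hi => if_neg hi⟩
    refine ⟨u - c, C.sub_mem hu hc, ?_, ?_, ?_⟩
    · rw [Pi.sub_apply, hua]
      simp only [c, if_pos ha, sub_zero]
    · intro i hi
      rw [Pi.sub_apply, hu0 i hi]
      simp only [c, if_pos (mem_of_mem_erase hi), sub_zero]
    · intro i hi
      rw [Pi.sub_apply, hform i hi]
      simp only [c, if_neg hi]
      ring
  refine ⟨fun i => if i = a then x else s i, fun _ => 1,
    fun i => if i = a then 1 / l else w i / (s i - x), ?_, ?_, ?_⟩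
  · intro i hi
    rcases hnot i hi with rfl | hi
    · simp [hl]
    · have hia : i ≠ a := fun e => hi (e ▸ ha)
      simp only [if_neg hia]
      exact div_ne_zero (hw i hi) (hxx i hi)
  · intro i hi i' hi' hii
    simp only [mul_one]
    rcases hnot i hi with rfl | hi
    · have hia : i' ≠ i := hii.symm
      rcases hnot i' hi' with rfl | hi'
      · exact absurd rfl hii
      · rw [if_pos rfl, if_neg hia]
        exact (hx i' hi').symm
    · have hia : i ≠ a := fun e => hi (e ▸ ha)
      have hxi := hx i hi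
      have hsi := hs i hi
      rcases hnot i' hi' with rfl | hi'
      · rw [if_pos rfl, if_neg hia]
        exact hxi
      · have hia' : i' ≠ a := fun e => hi' (e ▸ ha)
        rw [if_neg hia, if_neg hia']
        exact fun e => hii (hsi i' hi' e)
  · intro c hc0
    constructor
    · intro hc
      have h1 : c - c a • u' ∈ C := C.sub_mem hc (C.smul_mem _ hu')
      obtain ⟨f0, f1, f2, hf⟩ := (hC _ (by
        intro i hi
        rw [Pi.sub_apply, Pi.smul_apply, smul_eq_mul]
        by_cases hia : i = a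
        · subst hia; rw [hua']; ring
        · rw [hc0 i (mem_erase.2 ⟨hia, hi⟩), hu0' i (mem_erase.2 ⟨hia, hi⟩)]; ring)).1 h1
      refine ⟨fun j => if j = 0 then c a * l - x * f0 else if j = 1 then f0 - x * f1 else
        if j = 2 then f1 - x * f2 else f2, ?_⟩
      intro i hi
      rw [ev3]
      simp only [if_true, one_ne_zero, if_false, OfNat.ofNat_ne_zero, OfNat.ofNat_ne_one, mul_one,
        one_pow]
      rw [if_neg (by norm_num : ¬ (3 : ℕ) = 2)]
      rcases hnot i hi with rfl | hi
      · rw [if_pos rfl, if_pos rfl]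
        field_simp
        ring
      · have hia : i ≠ a := fun e => hi (e ▸ ha)
        rw [if_neg hia, if_neg hia]
        have h2 := hf i hi
        rw [Pi.sub_apply, Pi.smul_apply, smul_eq_mul, hform' i hi] at h2
        have h3 := hxx i hi
        have h4 : c i = w i * (f0 + f1 * s i + f2 * s i ^ 2) + c a * (w i * (l / (s i - x))) := by
          linear_combination h2
        rw [h4]
        field_simp
        ring
    · rintro ⟨g, hg⟩
      have hga := hg a (by simp)
      rw [ev3] at hga
      simp only [if_true, mul_one, one_pow] at hga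
      have h1 : c - c a • u' ∈ C := by
        refine (hC _ ?_).2 ⟨g 1 + g 2 * x + g 3 * x ^ 2, g 2 + g 3 * x, g 3, ?_⟩
        · intro i hi
          rw [Pi.sub_apply, Pi.smul_apply, smul_eq_mul]
          by_cases hia : i = a
          · subst hia; rw [hua']; ring
          · rw [hc0 i (mem_erase.2 ⟨hia, hi⟩), hu0' i (mem_erase.2 ⟨hia, hi⟩)]; ring
        · intro i hi
          have hia : i ≠ a := fun e => hi (e ▸ ha)
          rw [Pi.sub_apply, Pi.smul_apply, smul_eq_mul, hform' i hi,
            hg i (fun hh => hi (mem_of_mem_erase hh)), ev3, hga]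
          simp only [if_neg hia, mul_one, one_pow]
          have h3 := hxx i hi
          field_simp
          ring
      have h2 : c = (c - c a • u') + c a • u' := by abel
      rw [h2]
      exact C.add_mem h1 (C.smul_mem _ hu')

lemma isRS_cub (ha : a ∈ T) {s w : Fin n → F} (hA : Aff C T s w) {u : Fin n → F} (hu : u ∈ C)
    (hua : u a = 1) (hu0 : ∀ i ∈ T.erase a, u i = 0) {l c0 c1 c2 : F} (hl : l ≠ 0)
    (hform : ∀ i, i ∉ T → u i = w i * (l * s i ^ 3 + (c0 + c1 * s i + c2 * s i ^ 2))) :
    IsRS 3 (T.erase a) C := by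
  classical
  obtain ⟨hw, hs, hC⟩ := hA
  have hnot : ∀ i, i ∉ T.erase a → i = a ∨ i ∉ T := by
    intro i hi
    rw [mem_erase, not_and_or, not_not] at hi
    exact hi
  -- the word `u' = u - quadratic`
  obtain ⟨u', hu', hua', hu0', hform'⟩ : ∃ u' ∈ C, u' a = 1 ∧ (∀ i ∈ T.erase a, u' i = 0) ∧
      ∀ i, i ∉ T → u' i = w i * (l * s i ^ 3) := by
    let c : Fin n → F := fun i => if i ∈ T then 0 else w i * (c0 + c1 * s i + c2 * s i ^ 2)
    have hc : c ∈ C := (hC c (fun i hi => if_pos hi)).2 ⟨c0, c1, c2, fun i hi => if_neg hi⟩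
    refine ⟨u - c, C.sub_mem hu hc, ?_, ?_, ?_⟩
    · rw [Pi.sub_apply, hua]
      simp only [c, if_pos ha, sub_zero]
    · intro i hi
      rw [Pi.sub_apply, hu0 i hi]
      simp only [c, if_pos (mem_of_mem_erase hi), sub_zero]
    · intro i hi
      rw [Pi.sub_apply, hform i hi]
      simp only [c, if_neg hi]
      ring
  refine ⟨fun i => if i = a then 1 else s i, fun i => if i = a then 0 else 1,
    fun i => if i = a then 1 / l else w i, ?_, ?_, ?_⟩
  · intro i hi
    rcases hnot i hi with rfl | hi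
    · simp [hl]
    · have hia : i ≠ a := fun e => hi (e ▸ ha)
      simp only [if_neg hia]
      exact hw i hi
  · intro i hi i' hi' hii
    rcases hnot i hi with rfl | hi
    · have hia : i' ≠ i := hii.symm
      simp [hia]
    · have hia : i ≠ a := fun e => hi (e ▸ ha)
      rcases hnot i' hi' with rfl | hi'
      · simp [hia]
      · have hia' : i' ≠ a := fun e => hi' (e ▸ ha)
        simp only [if_neg hia, if_neg hia', mul_one]
        exact fun e => hii (hs i hi i' hi' e)
  · intro c hc0
    constructor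
    · intro hc
      have h1 : c - c a • u' ∈ C := C.sub_mem hc (C.smul_mem _ hu')
      obtain ⟨f0, f1, f2, hf⟩ := (hC _ (by
        intro i hi
        rw [Pi.sub_apply, Pi.smul_apply, smul_eq_mul]
        by_cases hia : i = a
        · subst hia; rw [hua']; ring
        · rw [hc0 i (mem_erase.2 ⟨hia, hi⟩), hu0' i (mem_erase.2 ⟨hia, hi⟩)]; ring)).1 h1
      refine ⟨fun j => if j = 0 then f0 else if j = 1 then f1 else
        if j = 2 then f2 else c a * l, ?_⟩
      intro i hi
      rw [ev3]
      simp only [if_true, one_ne_zero, if_false, OfNat.ofNat_ne_zero, OfNat.ofNat_ne_one, mul_one,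
        one_pow]
      rw [if_neg (by norm_num : ¬ (3 : ℕ) = 2)]
      rcases hnot i hi with rfl | hi
      · simp only [if_true]
        field_simp
        ring
      · have hia : i ≠ a := fun e => hi (e ▸ ha)
        simp only [if_neg hia]
        have h2 := hf i hi
        rw [Pi.sub_apply, Pi.smul_apply, smul_eq_mul, hform' i hi] at h2
        linear_combination h2
    · rintro ⟨g, hg⟩
      have hga := hg a (by simp)
      rw [ev3] at hga
      simp only [if_true] at hga
      have h1 : c - c a • u' ∈ C := by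
        refine (hC _ ?_).2 ⟨g 0, g 1, g 2, ?_⟩
        · intro i hi
          rw [Pi.sub_apply, Pi.smul_apply, smul_eq_mul]
          by_cases hia : i = a
          · subst hia; rw [hua']; ring
          · rw [hc0 i (mem_erase.2 ⟨hia, hi⟩), hu0' i (mem_erase.2 ⟨hia, hi⟩)]; ring
        · intro i hi
          have hia : i ≠ a := fun e => hi (e ▸ ha)
          rw [Pi.sub_apply, Pi.smul_apply, smul_eq_mul, hform' i hi,
            hg i (fun hh => hi (mem_of_mem_erase hh)), ev3, hga]
          simp only [if_neg hia, mul_one, one_pow]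
          field_simp
          ring
      have h2 : c = (c - c a • u') + c a • u' := by abel
      rw [h2]
      exact C.add_mem h1 (C.smul_mem _ hu')

end Pool.Agent.L5helper34.OC
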