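import Pool.Agent.L5helper34.OC.Base

set_option autoImplicit false
set_option linter.all false

namespace Pool.Agent.L5helper34.OC

open Finset Polynomial

variable {F : Type} [Field F] [DecidableEq F]

section Ext

variable {E : Type} [Field E]

/-- the nodes -/
def nd (ι : F →+* E) (τ : F → F) (y : F) (v : E) (a b : F) : E :=
  ι (τ a) / ((ι a - ι y) * (ι a - ι b)) + v / ((ι y - ι a) * (ι y - ι b)) +
    ι (τ b) / ((ι b - ι a) * (ι b - ι y))

lemma nd_sub (ι : F →+* E) (τ : F → F) (y : F) (v : E) {a b z : F} (hab : a ≠ b) (haz : a ≠ z)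
    (hbz : b ≠ z) (hya : y ≠ a) (hyb : y ≠ b) (hyz : y ≠ z) :
    nd ι τ y v a b - nd ι τ y v a z =
      ((ι b - ι z) * (v - ι (ipl τ y a b z))) / ((ι y - ι a) * (ι y - ι b) * (ι y - ι z)) := by
  have k : ∀ {x w : F}, x ≠ w → ι x - ι w ≠ 0 := fun {x w} h => by
    rw [← map_sub]; exact (map_ne_zero ι).2 (sub_ne_zero.2 h)
  have h1 := k hab
  have h2 := k haz
  have h3 := k hbz
  have h4 := k hya
  have h5 := k hyb
  have h6 := k hyz
  have h1' := k hab.symm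
  have h2' := k haz.symm
  have h3' := k hbz.symm
  have h4' := k hya.symm
  have h5' := k hyb.symm
  have h6' := k hyz.symm
  have ei : ι (ipl τ y a b z) = ι (τ a) * ((ι y - ι b) * (ι y - ι z)) / ((ι a - ι b) * (ι a - ι z)) +
      ι (τ b) * ((ι y - ι a) * (ι y - ι z)) / ((ι b - ι a) * (ι b - ι z)) +
      ι (τ z) * ((ι y - ι a) * (ι y - ι b)) / ((ι z - ι a) * (ι z - ι b)) := by
    unfold ipl
    simp only [map_add, map_mul, map_div₀, map_sub]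
  rw [ei]
  unfold nd
  generalize ι a = A at *
  generalize ι b = B at *
  generalize ι z = Z at *
  generalize ι y = W at *
  generalize ι (τ a) = ta
  generalize ι (τ b) = tb
  generalize ι (τ z) = tz
  have c1 : 1 / ((A - W) * (A - B)) - 1 / ((A - W) * (A - Z)) =
      - ((B - Z) * ((W - B) * (W - Z) / ((A - B) * (A - Z)))) / ((W - A) * (W - B) * (W - Z)) := by
    field_simp
    ring
  have c2 : 1 / ((W - A) * (W - B)) - 1 / ((W - A) * (W - Z)) =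
      (B - Z) / ((W - A) * (W - B) * (W - Z)) := by
    field_simp
    ring
  have c3 : 1 / ((B - A) * (B - W)) =
      - ((B - Z) * ((W - A) * (W - Z) / ((B - A) * (B - Z)))) / ((W - A) * (W - B) * (W - Z)) := by
    field_simp
    ring
  have c4 : - (1 / ((Z - A) * (Z - W))) =
      - ((B - Z) * ((W - A) * (W - B) / ((Z - A) * (Z - B)))) / ((W - A) * (W - B) * (W - Z)) := by
    field_simp
    ring
  linear_combination ta * c1 + v * c2 + tb * c3 + tz * c4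

variable [Fintype F]

/-- the values `ipl` -/
def Im (τ : F → F) (y : F) (Y : Finset F) (a b : F) : Finset F :=
  ((Y.erase a).erase b).image (ipl τ y a b)

/-- the weights -/
def S (m : ℕ) (Y : Finset F) (a b : F) : F := (a ^ m - b ^ m) ^ 2 / (dP Y a * dP Y b)

lemma S_symm (m : ℕ) (Y : Finset F) (a b : F) : S m Y a b = S m Y b a := by
  unfold S; ring

lemma Im_symm (τ : F → F) (y : F) (Y : Finset F) (a b : F) : Im τ y Y a b = Im τ y Y b a := by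
  unfold Im
  rw [erase_right_comm]
  exact image_congr fun z _ => ipl_symm τ y a b z

lemma pow_q {j : ℕ} (hq : Fintype.card F = 3 ^ (j + 1)) (x : F) : (x ^ (3 ^ j)) ^ 3 = x := by
  rw [← pow_mul, ← pow_succ, ← hq, FiniteField.pow_card]

variable (ι : F →+* E) (τ : F → F) (y : F) (v : E)

lemma v_ne (hv : ∏ c : F, (v - ι c) ≠ 0) (c : F) : v - ι c ≠ 0 :=
  fun h => hv (prod_eq_zero (mem_univ c) h)

lemma nd_injOn {Y : Finset F} (hy : y ∉ Y) (hv : ∏ c : F, (v - ι c) ≠ 0) {a : F} (ha : a ∈ Y) :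
    Set.InjOn (nd ι τ y v a) (Y.erase a : Finset F) := by
  intro b hb z hz he
  by_contra hbz
  rw [mem_coe, mem_erase] at hb hz
  have ne : ∀ {x : F}, x ∈ Y → y ≠ x := fun {x} hx e => hy (e ▸ hx)
  have h1 := nd_sub ι τ y v (a := a) (b := b) (z := z) hb.1.symm hz.1.symm hbz (ne ha) (ne hb.2)
    (ne hz.2)
  rw [he, sub_self] at h1
  have k : ∀ {x w : F}, x ≠ w → ι x - ι w ≠ 0 := fun {x w} h => by
    rw [← map_sub]; exact (map_ne_zero ι).2 (sub_ne_zero.2 h)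
  have h2 := div_ne_zero (mul_ne_zero (k hbz) (v_ne ι v hv (ipl τ y a b z)))
    (mul_ne_zero (mul_ne_zero (k (ne ha)) (k (ne hb.2))) (k (ne hz.2)))
  exact h2 h1.symm

lemma term_eq [CharP F 3] [CharP E 3] {j : ℕ} (hq : Fintype.card F = 3 ^ (j + 1)) {Y : Finset F}
    (hY : Y.card = 3 ^ j + 3) (h : NZ τ Y) (hy : y ∉ Y) (hv : ∏ c : F, (v - ι c) ≠ 0) {a b : F}
    (ha : a ∈ Y) (hb : b ∈ Y) (hab : a ≠ b) :
    nd ι τ y v a b ^ (3 ^ j) / ∏ z ∈ (Y.erase a).erase b, (nd ι τ y v a b - nd ι τ y v a z) =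
      (ι (∏ z ∈ Y, (y - z)) / ∏ c : F, (v - ι c)) * ι (dP Y a) *
        (ι (S (3 ^ j) Y a b) * (∏ c ∈ univ \ Im τ y Y a b, (v - ι c)) *
          (ι ((y ^ (3 ^ j) - b ^ (3 ^ j)) * τ a ^ (3 ^ j)) + ι (b ^ (3 ^ j) - a ^ (3 ^ j)) * v ^ (3 ^ j)
            - ι ((y ^ (3 ^ j) - a ^ (3 ^ j)) * τ b ^ (3 ^ j)))) := by
  haveI : Fact (Nat.Prime 3) := ⟨Nat.prime_three⟩
  haveI : ExpChar E 3 := ExpChar.prime Nat.prime_three
  have ne : ∀ {x : F}, x ∈ Y → y ≠ x := fun {x} hx e => hy (e ▸ hx)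
  have k : ∀ {x w : F}, x ≠ w → ι x - ι w ≠ 0 := fun {x w} h => by
    rw [← map_sub]; exact (map_ne_zero ι).2 (sub_ne_zero.2 h)
  have kya := k (ne ha)
  have kyb := k (ne hb)
  have kba := k hab.symm
  have hcard : ((Y.erase a).erase b).card = 3 ^ j + 1 := by
    rw [card_erase_of_mem (mem_erase.2 ⟨hab.symm, hb⟩), card_erase_of_mem ha, hY]; omega
  -- the product of the differences
  have hprod : ∏ z ∈ (Y.erase a).erase b, (nd ι τ y v a b - nd ι τ y v a z) =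
      (∏ z ∈ (Y.erase a).erase b, (ι b - ι z)) * (∏ c ∈ Im τ y Y a b, (v - ι c)) /
        (((ι y - ι a) * (ι y - ι b)) ^ (3 ^ j + 1) * ∏ z ∈ (Y.erase a).erase b, (ι y - ι z)) := by
    have e1 : ∀ z ∈ (Y.erase a).erase b, nd ι τ y v a b - nd ι τ y v a z =
        ((ι b - ι z) * (v - ι (ipl τ y a b z))) / ((ι y - ι a) * (ι y - ι b) * (ι y - ι z)) := by
      intro z hz
      rw [mem_erase, mem_erase] at hz
      exact nd_sub ι τ y v hab hz.2.1.symm hz.1.symm (ne ha) (ne hb) (ne hz.2.2)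
    rw [prod_congr rfl e1, prod_div_distrib, prod_mul_distrib, prod_mul_distrib, prod_const, hcard,
      Im, prod_image (ipl_injOn h hy ha hb hab)]
  have hA : ι (dP Y b) = (ι b - ι a) * ∏ z ∈ (Y.erase a).erase b, (ι b - ι z) := by
    rw [erase_right_comm, dP, ← mul_prod_erase _ _ (mem_erase.2 ⟨hab, ha⟩), map_mul, map_sub, map_prod]
    simp only [map_sub]
  have hB : (∏ c ∈ Im τ y Y a b, (v - ι c)) * (∏ c ∈ univ \ Im τ y Y a b, (v - ι c)) =
      ∏ c : F, (v - ι c) := by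
    rw [mul_comm]
    exact prod_sdiff (subset_univ _)
  have hD : ι (∏ z ∈ Y, (y - z)) =
      (ι y - ι a) * ((ι y - ι b) * ∏ z ∈ (Y.erase a).erase b, (ι y - ι z)) := by
    rw [← mul_prod_erase _ _ ha, ← mul_prod_erase _ _ (mem_erase.2 ⟨hab.symm, hb⟩), map_mul, map_mul,
      map_sub, map_sub, map_prod]
    simp only [map_sub]
  have h3 : ι b - ι a = (ι b ^ (3 ^ j) - ι a ^ (3 ^ j)) ^ 3 := by
    rw [← sub_pow_char_pow, ← map_sub, ← map_pow, ← map_pow, pow_q hq]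
  have rp := rpow j (a := ι a) (b := ι b) (y := ι y) (ta := ι (τ a)) (tb := ι (τ b)) (v := v) kba kya kyb
  have hnd : nd ι τ y v a b = ι (τ a) / ((ι a - ι y) * (ι a - ι b)) + v / ((ι y - ι a) * (ι y - ι b)) +
    ι (τ b) / ((ι b - ι a) * (ι b - ι y)) := rfl
  rw [← hnd] at rp
  have hS : ι (S (3 ^ j) Y a b) = (ι b ^ (3 ^ j) - ι a ^ (3 ^ j)) ^ 2 / (ι (dP Y a) * ι (dP Y b)) := by
    rw [S, map_div₀, map_mul, map_pow, map_sub, map_pow, map_pow]
    ring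
  have hA0 : ∏ z ∈ (Y.erase a).erase b, (ι b - ι z) ≠ 0 :=
    prod_ne_zero_iff.2 fun z hz => k (ne_of_mem_erase hz).symm
  have hD0 : ∏ z ∈ (Y.erase a).erase b, (ι y - ι z) ≠ 0 :=
    prod_ne_zero_iff.2 fun z hz => k (ne (mem_of_mem_erase (mem_of_mem_erase hz)))
  have hn0 : ∏ c ∈ Im τ y Y a b, (v - ι c) ≠ 0 := prod_ne_zero_iff.2 fun c _ => v_ne ι v hv c
  have ht0 : ∏ c ∈ univ \ Im τ y Y a b, (v - ι c) ≠ 0 :=
    prod_ne_zero_iff.2 fun c _ => v_ne ι v hv c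
  have hda : ι (dP Y a) ≠ 0 := (map_ne_zero ι).2 (dP_ne a)
  have hp1 : (ι y - ι a) ^ (3 ^ j) = ι y ^ (3 ^ j) - ι a ^ (3 ^ j) := sub_pow_char_pow _ _ _
  have hp2 : (ι y - ι b) ^ (3 ^ j) = ι y ^ (3 ^ j) - ι b ^ (3 ^ j) := sub_pow_char_pow _ _ _
  have hp1' : ι y ^ (3 ^ j) - ι a ^ (3 ^ j) ≠ 0 := hp1 ▸ pow_ne_zero _ kya
  have hp2' : ι y ^ (3 ^ j) - ι b ^ (3 ^ j) ≠ 0 := hp2 ▸ pow_ne_zero _ kyb
  have hbet : ι b ^ (3 ^ j) - ι a ^ (3 ^ j) ≠ 0 := fun e => kba (by rw [h3, e]; ring)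
  rw [hprod, hS, hA, ← hB, hD, pow_succ, mul_pow, hp1, hp2]
  simp only [map_mul, map_sub, map_pow]
  rw [← rp, h3]
  generalize ι b ^ (3 ^ j) - ι a ^ (3 ^ j) = β at *
  generalize ι y ^ (3 ^ j) - ι a ^ (3 ^ j) = p1 at *
  generalize ι y ^ (3 ^ j) - ι b ^ (3 ^ j) = p2 at *
  generalize nd ι τ y v a b ^ (3 ^ j) = N at *
  generalize ∏ z ∈ (Y.erase a).erase b, (ι b - ι z) = PA at *
  generalize ∏ z ∈ (Y.erase a).erase b, (ι y - ι z) = PD at *
  generalize ∏ c ∈ Im τ y Y a b, (v - ι c) = PN at *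
  generalize ∏ c ∈ univ \ Im τ y Y a b, (v - ι c) = PT at *
  generalize ι (dP Y a) = DA at *
  generalize ι y - ι a = ya at *
  generalize ι y - ι b = yb at *
  clear hprod hA hB hD rp hS hnd hp1 hp2
  field_simp

/-- the relation over the extension -/
lemma rel_ext [CharP F 3] [CharP E 3] {j : ℕ} (hq : Fintype.card F = 3 ^ (j + 1)) {Y : Finset F}
    (hY : Y.card = 3 ^ j + 3) (h : NZ τ Y) (hy : y ∉ Y) (hv : ∏ c : F, (v - ι c) ≠ 0) {a : F}
    (ha : a ∈ Y) :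
    ∑ b ∈ Y.erase a, (ι (S (3 ^ j) Y a b) * (∏ c ∈ univ \ Im τ y Y a b, (v - ι c)) *
          (ι ((y ^ (3 ^ j) - b ^ (3 ^ j)) * τ a ^ (3 ^ j)) + ι (b ^ (3 ^ j) - a ^ (3 ^ j)) * v ^ (3 ^ j)
            - ι ((y ^ (3 ^ j) - a ^ (3 ^ j)) * τ b ^ (3 ^ j)))) = 0 := by
  have h1 := lagrange (Y.erase a) (nd ι τ y v a) (nd_injOn ι τ y v hy hv ha) (3 ^ j)
    (by rw [card_erase_of_mem ha, hY]; omega)
  have ne : ∀ {x : F}, x ∈ Y → y ≠ x := fun {x} hx e => hy (e ▸ hx)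
  have h2 : ∀ b ∈ Y.erase a, nd ι τ y v a b ^ (3 ^ j) /
      ∏ z ∈ (Y.erase a).erase b, (nd ι τ y v a b - nd ι τ y v a z) = _ := fun b hb =>
    term_eq ι τ y v hq hY h hy hv ha (mem_of_mem_erase hb) (ne_of_mem_erase hb).symm
  rw [sum_congr rfl h2, ← mul_sum] at h1
  refine (mul_eq_zero.1 h1).resolve_left (mul_ne_zero (div_ne_zero ?_ hv) ?_)
  · exact (map_ne_zero ι).2 (prod_ne_zero_iff.2 fun z hz => sub_ne_zero.2 (ne hz))
  · exact (map_ne_zero ι).2 (dP_ne a)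

end Ext

end Pool.Agent.L5helper34.OC
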