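import Pool.Agent.L5helper34.OC.T3

set_option autoImplicit false
set_option linter.all false

namespace Pool.Agent.L5helper34.OC

open Finset Polynomial

variable {F : Type} [Field F] [DecidableEq F] [Fintype F]

/-- the polynomials `t` -/
noncomputable def tp (τ : F → F) (y : F) (Y : Finset F) (a b : F) : F[X] :=
  ∏ c ∈ univ \ Im τ y Y a b, (X - C c)

lemma tp_symm (τ : F → F) (y : F) (Y : Finset F) (a b : F) : tp τ y Y a b = tp τ y Y b a := by
  unfold tp; rw [Im_symm]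

lemma tp_monic (τ : F → F) (y : F) (Y : Finset F) (a b : F) : (tp τ y Y a b).Monic :=
  monic_prod_of_monic _ _ fun c _ => monic_X_sub_C c

lemma tp_deg {j : ℕ} (hq : Fintype.card F = 3 ^ (j + 1)) {Y : Finset F} (hY : Y.card = 3 ^ j + 3)
    {τ : F → F} {y : F} (h : NZ τ Y) (hy : y ∉ Y) {a b : F} (ha : a ∈ Y) (hb : b ∈ Y) (hab : a ≠ b) :
    (tp τ y Y a b).natDegree = 3 ^ j - 1 + 3 ^ j := by
  have hcard : ((Y.erase a).erase b).card = 3 ^ j + 1 := by
    rw [card_erase_of_mem (mem_erase.2 ⟨hab.symm, hb⟩), card_erase_of_mem ha, hY]; omega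
  have h1 : (Im τ y Y a b).card = 3 ^ j + 1 := by
    rw [Im, card_image_of_injOn (ipl_injOn h hy ha hb hab), hcard]
  unfold tp
  rw [natDegree_prod_of_monic _ _ fun c _ => monic_X_sub_C c]
  simp only [natDegree_X_sub_C, sum_const, smul_eq_mul, mul_one]
  rw [card_sdiff_of_subset (subset_univ _), card_univ, hq, h1, pow_succ]
  have : 1 ≤ 3 ^ j := Nat.one_le_pow _ _ (by norm_num)
  omega

lemma rel_poly [CharP F 3] {j : ℕ} (hq : Fintype.card F = 3 ^ (j + 1)) {Y : Finset F}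
    (hY : Y.card = 3 ^ j + 3) {τ : F → F} {y : F} (h : NZ τ Y) (hy : y ∉ Y) {a : F} (ha : a ∈ Y) :
    ∑ b ∈ Y.erase a, (C (S (3 ^ j) Y a b) * tp τ y Y a b *
          (C ((y ^ (3 ^ j) - b ^ (3 ^ j)) * τ a ^ (3 ^ j)) + C (b ^ (3 ^ j) - a ^ (3 ^ j)) * X ^ (3 ^ j)
            - C ((y ^ (3 ^ j) - a ^ (3 ^ j)) * τ b ^ (3 ^ j)))) = 0 := by
  have hinj : Function.Injective (algebraMap F[X] (FractionRing F[X])) :=
    IsFractionRing.injective F[X] (FractionRing F[X])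
  let ι : F →+* FractionRing F[X] := (algebraMap F[X] (FractionRing F[X])).comp C
  haveI : CharP (FractionRing F[X]) 3 := (RingHom.charP_iff ι ι.injective 3).1 inferInstance
  have hv : ∏ c : F, (algebraMap F[X] (FractionRing F[X]) X - ι c) ≠ 0 := by
    refine prod_ne_zero_iff.2 fun c _ => ?_
    have e : algebraMap F[X] (FractionRing F[X]) X - ι c =
        algebraMap F[X] (FractionRing F[X]) (X - C c) := by
      rw [map_sub]; rfl
    rw [e]
    exact (map_ne_zero_iff _ hinj).2 (X_sub_C_ne_zero c)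
  have h1 := rel_ext ι τ y (algebraMap F[X] (FractionRing F[X]) X) hq hY h hy hv ha
  refine hinj ?_
  rw [map_zero, ← h1, map_sum]
  refine sum_congr rfl fun b _ => ?_
  have eι : ∀ x, ι x = algebraMap F[X] (FractionRing F[X]) (C x) := fun _ => rfl
  simp only [tp, eι, map_mul, map_sub, map_add, map_pow, map_prod]

open Classical in
/-- **The basic relation.** -/
theorem T3 [CharP F 3] {j : ℕ} (hq : Fintype.card F = 3 ^ (j + 1)) (hj : 1 ≤ j) {Y : Finset F}
    (hY : Y.card = 3 ^ j + 3) {τ : F → F} (h : NZ τ Y) :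
    ∑ a ∈ Y, ∑ b ∈ Y.erase a,
      S (3 ^ j) Y a b * (τ a ^ (3 ^ j) * (τ a ^ (3 ^ j) - τ b ^ (3 ^ j))) = 0 := by
  have h3j : 3 ≤ 3 ^ j := by
    calc 3 = 3 ^ 1 := by norm_num
      _ ≤ 3 ^ j := Nat.pow_le_pow_right (by norm_num) hj
  obtain ⟨y, hy⟩ : ∃ y, y ∉ Y := by
    by_contra hcon
    push Not at hcon
    have h1 : Y = univ := eq_univ_iff_forall.2 hcon
    rw [h1, card_univ, hq, pow_succ] at hY
    omega
  haveI : Fact (Nat.Prime 3) := ⟨Nat.prime_three⟩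
  haveI : ExpChar F 3 := ExpChar.prime Nat.prime_three
  set m := 3 ^ j with hm
  have hya : ∀ a ∈ Y, y ^ m - a ^ m ≠ 0 := fun a ha e => by
    rw [hm, ← sub_pow_char_pow] at e
    exact hy (by rw [sub_eq_zero.1 (pow_eq_zero_iff (by omega) |>.1 e)]; exact ha)
  let A0 : F → F[X] := fun a => ∑ b ∈ Y.erase a, C (S m Y a b) * tp τ y Y a b
  let A1 : F → F[X] := fun a => ∑ b ∈ Y.erase a, C (S m Y a b * b ^ m) * tp τ y Y a b
  let A3 : F → F[X] := fun a => ∑ b ∈ Y.erase a, C (S m Y a b * τ b ^ m) * tp τ y Y a b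
  let B : F → F[X] := fun a => - C ((y ^ m - a ^ m)⁻¹) * (A1 a - C (a ^ m) * A0 a)
  have eqB : ∀ a ∈ Y, C (y ^ m - a ^ m) * B a = - (A1 a - C (a ^ m) * A0 a) := fun a ha => by
    have e : C (y ^ m - a ^ m) * C ((y ^ m - a ^ m)⁻¹) = (1 : F[X]) := by
      rw [← C_mul, mul_inv_cancel₀ (hya a ha), C_1]
    show C (y ^ m - a ^ m) * (- C ((y ^ m - a ^ m)⁻¹) * (A1 a - C (a ^ m) * A0 a)) = _
    linear_combination (-(A1 a - C (a ^ m) * A0 a)) * e
  have eq3 : ∀ a ∈ Y, A3 a + B a * X ^ m - (A0 a + B a) * C (τ a ^ m) = 0 := by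
    intro a ha
    have h1 := rel_poly hq hY h hy ha
    have h2 : ∑ b ∈ Y.erase a, (C (S m Y a b) * tp τ y Y a b *
          (C ((y ^ m - b ^ m) * τ a ^ m) + C (b ^ m - a ^ m) * X ^ m
            - C ((y ^ m - a ^ m) * τ b ^ m))) =
        C (τ a ^ m) * (C (y ^ m) * A0 a - A1 a) + (A1 a - C (a ^ m) * A0 a) * X ^ m -
          C (y ^ m - a ^ m) * A3 a := by
      show _ = C (τ a ^ m) * (C (y ^ m) * (∑ b ∈ Y.erase a, C (S m Y a b) * tp τ y Y a b) -
        ∑ b ∈ Y.erase a, C (S m Y a b * b ^ m) * tp τ y Y a b) +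
        ((∑ b ∈ Y.erase a, C (S m Y a b * b ^ m) * tp τ y Y a b) - C (a ^ m) *
          (∑ b ∈ Y.erase a, C (S m Y a b) * tp τ y Y a b)) * X ^ m -
          C (y ^ m - a ^ m) * (∑ b ∈ Y.erase a, C (S m Y a b * τ b ^ m) * tp τ y Y a b)
      simp only [mul_sum, ← sum_sub_distrib, ← sum_add_distrib, sum_mul]
      refine sum_congr rfl fun b _ => ?_
      simp only [C_mul, C_sub]
      ring
    rw [h2] at h1
    have h3 : C (y ^ m - a ^ m) * (A3 a + B a * X ^ m - (A0 a + B a) * C (τ a ^ m)) = 0 := by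
      have h4 := eqB a ha
      have h5 : C (y ^ m - a ^ m) = C (y ^ m) - C (a ^ m) := C_sub
      linear_combination (-1 : F[X]) * h1 + (X ^ m - C (τ a ^ m)) * h4 +
        (- A0 a * C (τ a ^ m)) * h5
    exact (mul_eq_zero.1 h3).resolve_left (C_ne_zero.2 (hya a ha))
  have degA : ∀ (c : F → F → F), ∀ a ∈ Y,
      (∑ b ∈ Y.erase a, C (c a b) * tp τ y Y a b).natDegree ≤ m - 1 + m := by
    intro c a ha
    refine natDegree_sum_le_of_forall_le _ _ fun b hb => ?_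
    refine (natDegree_C_mul_le _ _).trans ?_
    rw [tp_deg hq hY h hy ha (mem_of_mem_erase hb) (ne_of_mem_erase hb).symm]
  have coA : ∀ (c : F → F → F), ∀ a ∈ Y,
      (∑ b ∈ Y.erase a, C (c a b) * tp τ y Y a b).coeff (m - 1 + m) = ∑ b ∈ Y.erase a, c a b := by
    intro c a ha
    rw [finset_sum_coeff]
    refine sum_congr rfl fun b hb => ?_
    rw [coeff_C_mul]
    have h1 := tp_deg hq hY h hy ha (mem_of_mem_erase hb) (ne_of_mem_erase hb).symm
    have h2 := (tp_monic τ y Y a b).coeff_natDegree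
    rw [h1] at h2
    rw [h2, mul_one]
  have dA0 : ∀ a ∈ Y, (A0 a).natDegree ≤ m - 1 + m := degA (fun a b => S m Y a b)
  have dA1 : ∀ a ∈ Y, (A1 a).natDegree ≤ m - 1 + m := degA (fun a b => S m Y a b * b ^ m)
  have dA3 : ∀ a ∈ Y, (A3 a).natDegree ≤ m - 1 + m := degA (fun a b => S m Y a b * τ b ^ m)
  have dB' : ∀ a ∈ Y, (B a).natDegree ≤ m - 1 + m := by
    intro a ha
    show (- C ((y ^ m - a ^ m)⁻¹) * (A1 a - C (a ^ m) * A0 a)).natDegree ≤ _
    rw [neg_mul, natDegree_neg]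
    refine (natDegree_C_mul_le _ _).trans ?_
    refine (natDegree_sub_le _ _).trans (max_le (dA1 a ha) ?_)
    exact (natDegree_C_mul_le _ _).trans (dA0 a ha)
  have dB : ∀ a ∈ Y, (B a).natDegree ≤ m - 1 := by
    intro a ha
    by_cases h0 : B a = 0
    · rw [h0, natDegree_zero]; omega
    have h1 : B a * X ^ m = (A0 a + B a) * C (τ a ^ m) - A3 a := by
      linear_combination eq3 a ha
    have h2 : (B a * X ^ m).natDegree ≤ m - 1 + m := by
      rw [h1]
      refine (natDegree_sub_le _ _).trans (max_le ?_ (dA3 a ha))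
      refine (natDegree_mul_C_le _ _).trans ?_
      exact (natDegree_add_le _ _).trans (max_le (dA0 a ha) (dB' a ha))
    rw [natDegree_mul_X_pow _ h0] at h2
    omega
  -- symmetry
  have hsym : ∑ a ∈ Y, A3 a = ∑ a ∈ Y, A0 a * C (τ a ^ m) := by
    show ∑ a ∈ Y, ∑ b ∈ Y.erase a, C (S m Y a b * τ b ^ m) * tp τ y Y a b =
      ∑ a ∈ Y, (∑ b ∈ Y.erase a, C (S m Y a b) * tp τ y Y a b) * C (τ a ^ m)
    simp only [sum_mul]
    rw [sum_comm' (s' := fun b => Y.erase b) (t' := Y)]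
    · refine sum_congr rfl fun a _ => sum_congr rfl fun b _ => ?_
      rw [S_symm m Y b a, tp_symm τ y Y b a, C_mul]
      ring
    · intro a b
      simp only [mem_erase]
      constructor
      · rintro ⟨h1, h2, h3⟩; exact ⟨⟨Ne.symm h2, h1⟩, h3⟩
      · rintro ⟨⟨h1, h2⟩, h3⟩; exact ⟨h2, Ne.symm h1, h3⟩
  have hB0 : (∑ a ∈ Y, B a) * X ^ m = ∑ a ∈ Y, B a * C (τ a ^ m) := by
    have h1 : ∑ a ∈ Y, (A3 a + B a * X ^ m - (A0 a + B a) * C (τ a ^ m)) = 0 :=
      sum_eq_zero eq3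
    simp only [sum_sub_distrib, sum_add_distrib, add_mul] at h1
    rw [sum_mul]
    rw [hsym] at h1
    linear_combination h1
  have hB3 : ∑ a ∈ Y, B a * C (τ a ^ m) = 0 := by
    have h1 : (∑ a ∈ Y, B a * C (τ a ^ m)).natDegree ≤ m - 1 :=
      natDegree_sum_le_of_forall_le _ _ fun a ha => (natDegree_mul_C_le _ _).trans (dB a ha)
    by_cases h0 : ∑ a ∈ Y, B a = 0
    · rw [← hB0, h0, zero_mul]
    · rw [← hB0, natDegree_mul_X_pow _ h0] at h1
      omega
  have h5 := congrArg (fun p : F[X] => p.coeff (m - 1)) hB3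
  simp only [finset_sum_coeff, coeff_mul_C, coeff_zero] at h5
  rw [← h5]
  refine sum_congr rfl fun a ha => ?_
  have h6 := congrArg (fun p : F[X] => p.coeff (m - 1 + m)) (eq3 a ha)
  simp only [coeff_sub, coeff_add, coeff_mul_X_pow, coeff_mul_C, coeff_zero] at h6
  have h7 : (A3 a).coeff (m - 1 + m) = ∑ b ∈ Y.erase a, S m Y a b * τ b ^ m :=
    coA (fun a b => S m Y a b * τ b ^ m) a ha
  have h8 : (A0 a).coeff (m - 1 + m) = ∑ b ∈ Y.erase a, S m Y a b :=
    coA (fun a b => S m Y a b) a ha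
  have h9 : (B a).coeff (m - 1 + m) = 0 :=
    coeff_eq_zero_of_natDegree_lt (lt_of_le_of_lt (dB a ha) (by omega))
  rw [h7, h8, h9] at h6
  have h10 : ∑ b ∈ Y.erase a, S m Y a b * (τ a ^ m * (τ a ^ m - τ b ^ m)) =
      τ a ^ m * (τ a ^ m * ∑ b ∈ Y.erase a, S m Y a b - ∑ b ∈ Y.erase a, S m Y a b * τ b ^ m) := by
    rw [mul_sub, mul_sum, mul_sum, mul_sum, ← sum_sub_distrib]
    exact sum_congr rfl fun b _ => by ring
  rw [h10]
  linear_combination (-(τ a ^ m)) * h6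

end Pool.Agent.L5helper34.OC
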